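import Mathlib

set_option autoImplicit false

/-! Sequences of scales with bounded ratios: counting the frequencies `α` for which `lam j * α` is near an
integer for almost all `j`. -/

namespace Pool.Agent.HP84.SP
open Finset

/-- a sequence of scales whose ratios lie between `2` and `R` -/
structure Scales (R : ℕ) (lam : ℕ → ℝ) : Prop where
  pos : ∀ j, 0 < lam j
  two : ∀ j, 2 * lam j ≤ lam (j + 1)
  ratio : ∀ j, lam (j + 1) ≤ R * lam j

/-- `x` has distance at least `δ` from the integers -/
def Far (δ x : ℝ) : Prop := ∀ n : ℤ, δ ≤ |x - n|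

lemma Far.neg {δ x : ℝ} (h : Far δ x) : Far δ (-x) := by
  intro n
  have := h (-n)
  rw [show -x - (n : ℝ) = -(x - ((-n : ℤ) : ℝ)) by push_cast; ring, abs_neg]
  exact this

variable {ι : Type}

/-- the nearest integers at consecutive scales do not fit together -/
def BadT (lam : ℕ → ℝ) (j : ℕ) (α : ℝ) : Prop :=
  ¬ |(round (lam (j + 1) * α) : ℝ) - lam (j + 1) / lam j * round (lam j * α)| < 1 / 2

lemma round_eq_of (x : ℝ) (n : ℤ) (h : |(n : ℝ) - x| < 1 / 2) : round x = n := by
  rw [round_eq, Int.floor_eq_iff]
  rw [abs_lt] at h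
  constructor <;> linarith [h.1, h.2]

lemma step_near {R : ℕ} {lam : ℕ → ℝ} (h : Scales R lam) (j : ℕ) (α : ℝ) :
    |(round (lam (j + 1) * α) : ℝ) - lam (j + 1) / lam j * round (lam j * α)| ≤ (1 + R) / 2 := by
  have h0 := h.pos j
  have h1 := h.ratio j
  have hp := h.pos (j + 1)
  have e1 : |(round (lam (j + 1) * α) : ℝ) - lam (j + 1) * α| ≤ 1 / 2 := by
    rw [abs_sub_comm]; exact abs_sub_round _
  have e2 : |lam j * α - round (lam j * α)| ≤ 1 / 2 := abs_sub_round _
  have hθ : lam (j + 1) / lam j ≤ R := by rw [div_le_iff₀ h0]; exact h1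
  have hθ0 : 0 ≤ lam (j + 1) / lam j := by positivity
  have e3 : (round (lam (j + 1) * α) : ℝ) - lam (j + 1) / lam j * round (lam j * α) =
      ((round (lam (j + 1) * α) : ℝ) - lam (j + 1) * α) + lam (j + 1) / lam j * (lam j * α - round (lam j * α)) := by
    field_simp
    ring
  rw [e3]
  refine (abs_add_le _ _).trans ?_
  rw [abs_mul, abs_of_nonneg hθ0]
  have e4 : lam (j + 1) / lam j * |lam j * α - round (lam j * α)| ≤ R * (1 / 2) :=
    mul_le_mul hθ e2 (abs_nonneg _) (Nat.cast_nonneg _)
  linarith

/-- the integers within `(1 + R) / 2` -/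
lemma card_near (R : ℕ) (y : ℝ) :
    (Icc ⌈y - (1 + R) / 2⌉ ⌊y + (1 + R) / 2⌋).card ≤ R + 2 := by
  rw [Int.card_Icc]
  have h1 := Int.floor_le (y + (1 + R) / 2)
  have h2 := Int.le_ceil (y - (1 + (R : ℝ)) / 2)
  have h3 : ((⌊y + (1 + (R : ℝ)) / 2⌋ : ℤ) : ℝ) + 1 - ((⌈y - (1 + (R : ℝ)) / 2⌉ : ℤ) : ℝ) ≤ (R : ℝ) + 2 := by linarith
  have h4 : ⌊y + (1 + (R : ℝ)) / 2⌋ + 1 - ⌈y - (1 + (R : ℝ)) / 2⌉ ≤ (R : ℤ) + 2 := by exact_mod_cast h3
  omega

open Classical in
/-- the number of the values of the nearest integer after `w` steps with at most `n` bad transitions -/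
theorem main_count {R : ℕ} {lam : ℕ → ℝ} (h : Scales R lam) (x : ℝ) (hx0 : 0 < x) (hx1 : x ≤ 1) (a : ι → ℝ) (i : ℕ) :
    ∀ (w n : ℕ) (T : Finset ι), (∀ t ∈ T, ((range w).filter (fun j => BadT lam (i + j) (a t))).card ≤ n) →
    ((T.image (fun t => round (lam (i + w) * a t))).card : ℝ) * x ^ n ≤
      (1 + ((R : ℝ) + 2) * x) ^ w * (T.image (fun t => round (lam i * a t))).card := by
  intro w
  induction w with
  | zero =>
    intro n T _
    rw [pow_zero, one_mul, Nat.add_zero]
    exact mul_le_of_le_one_right (Nat.cast_nonneg _) (pow_le_one₀ hx0.le hx1)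
  | succ w ih =>
    intro n T hT
    set c0 : ℝ := ((T.image (fun t => round (lam i * a t))).card : ℝ) with hc0
    have hc00 : 0 ≤ c0 := Nat.cast_nonneg _
    set P : ℝ := (1 + ((R : ℝ) + 2) * x) ^ w with hP
    have hP0 : 0 ≤ P := by positivity
    have hcnt : ∀ t, ((range w).filter (fun j => BadT lam (i + j) (a t))).card +
        (if BadT lam (i + w) (a t) then 1 else 0) = ((range (w + 1)).filter (fun j => BadT lam (i + j) (a t))).card := by
      intro t
      rw [range_add_one, filter_insert]
      split_ifs with hb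
      · rw [card_insert_of_notMem]
        rw [mem_filter, mem_range]
        omega
      · rfl
    set Tg := T.filter (fun t => ¬ BadT lam (i + w) (a t)) with hTg
    set Tb := T.filter (fun t => BadT lam (i + w) (a t)) with hTb
    have hsub : T.image (fun t => round (lam (i + (w + 1)) * a t)) ⊆
        (Tg.image (fun t => round (lam (i + (w + 1)) * a t))) ∪ (Tb.image (fun t => round (lam (i + (w + 1)) * a t))) := by
      intro m hm
      rw [mem_image] at hm
      obtain ⟨t, ht, rfl⟩ := hm
      rw [mem_union, mem_image, mem_image]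
      by_cases hb : BadT lam (i + w) (a t)
      · right; exact ⟨t, mem_filter.2 ⟨ht, hb⟩, rfl⟩
      · left; exact ⟨t, mem_filter.2 ⟨ht, hb⟩, rfl⟩
    have himg : ∀ T' ⊆ T, ((T'.image (fun t => round (lam i * a t))).card : ℝ) ≤ c0 := by
      intro T' hT'
      rw [hc0]
      exact_mod_cast card_le_card (image_subset_image hT')
    have hg1 : ((Tg.image (fun t => round (lam (i + (w + 1)) * a t))).card : ℝ) ≤
        ((Tg.image (fun t => round (lam (i + w) * a t))).card : ℝ) := by
      have : Tg.image (fun t => round (lam (i + (w + 1)) * a t)) ⊆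
          (Tg.image (fun t => round (lam (i + w) * a t))).image (fun m : ℤ => round (lam (i + w + 1) / lam (i + w) * (m : ℝ))) := by
        intro m hm
        rw [mem_image] at hm
        obtain ⟨t, ht, rfl⟩ := hm
        rw [mem_image]
        refine ⟨_, mem_image_of_mem _ ht, ?_⟩
        have hb := (mem_filter.1 ht).2
        unfold BadT at hb
        rw [not_not] at hb
        exact round_eq_of _ _ hb
      exact_mod_cast (card_le_card this).trans card_image_le
    have hg2 := ih n Tg (fun t ht => by
      have h1 := hT t (mem_filter.1 ht).1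
      have h2 := hcnt t
      omega)
    have hg3 := himg Tg (filter_subset _ _)
    have hg : ((Tg.image (fun t => round (lam (i + (w + 1)) * a t))).card : ℝ) * x ^ n ≤ P * c0 := by
      calc _ ≤ ((Tg.image (fun t => round (lam (i + w) * a t))).card : ℝ) * x ^ n :=
            mul_le_mul_of_nonneg_right hg1 (by positivity)
        _ ≤ P * _ := hg2
        _ ≤ P * c0 := mul_le_mul_of_nonneg_left hg3 hP0
    have hb1 : ((Tb.image (fun t => round (lam (i + (w + 1)) * a t))).card : ℝ) ≤
        ((R : ℝ) + 2) * ((Tb.image (fun t => round (lam (i + w) * a t))).card : ℝ) := by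
      have : Tb.image (fun t => round (lam (i + (w + 1)) * a t)) ⊆
          (Tb.image (fun t => round (lam (i + w) * a t))).biUnion (fun m : ℤ =>
            Icc ⌈lam (i + w + 1) / lam (i + w) * (m : ℝ) - (1 + R) / 2⌉ ⌊lam (i + w + 1) / lam (i + w) * (m : ℝ) + (1 + R) / 2⌋) := by
        intro m hm
        rw [mem_image] at hm
        obtain ⟨t, ht, rfl⟩ := hm
        rw [mem_biUnion]
        refine ⟨_, mem_image_of_mem _ ht, ?_⟩
        have h1 := step_near h (i + w) (a t)
        rw [abs_le] at h1
        rw [mem_Icc]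
        rw [show i + (w + 1) = i + w + 1 by ring]
        constructor
        · rw [Int.ceil_le]; linarith [h1.1]
        · rw [Int.le_floor]; linarith [h1.2]
      have h2 := (card_le_card this).trans card_biUnion_le
      have h3 := h2.trans (sum_le_sum fun m _ => card_near R _)
      rw [sum_const, smul_eq_mul] at h3
      have h4 : ((Tb.image (fun t => round (lam (i + (w + 1)) * a t))).card : ℝ) ≤
        ((Tb.image (fun t => round (lam (i + w) * a t))).card : ℝ) * ((R : ℝ) + 2) := by exact_mod_cast h3
      linarith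
    have hb : ((Tb.image (fun t => round (lam (i + (w + 1)) * a t))).card : ℝ) * x ^ n ≤ ((R : ℝ) + 2) * x * (P * c0) := by
      rcases Tb.eq_empty_or_nonempty with he | ⟨t0, ht0⟩
      · rw [he]
        simp only [image_empty, card_empty, Nat.cast_zero, zero_mul]
        positivity
      · have hn : 1 ≤ n := by
          have h1 := hT t0 (mem_filter.1 ht0).1
          have h2 := hcnt t0
          rw [if_pos (mem_filter.1 ht0).2] at h2
          omega
        obtain ⟨n', rfl⟩ : ∃ n', n = n' + 1 := ⟨n - 1, by omega⟩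
        have hb2 := ih n' Tb (fun t ht => by
          have h1 := hT t (mem_filter.1 ht).1
          have h2 := hcnt t
          rw [if_pos (mem_filter.1 ht).2] at h2
          omega)
        have hb3 := himg Tb (filter_subset _ _)
        calc _ ≤ (((R : ℝ) + 2) * ((Tb.image (fun t => round (lam (i + w) * a t))).card : ℝ)) * x ^ (n' + 1) :=
              mul_le_mul_of_nonneg_right hb1 (by positivity)
          _ = ((R : ℝ) + 2) * x * (((Tb.image (fun t => round (lam (i + w) * a t))).card : ℝ) * x ^ n') := by
              rw [pow_succ]; ring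
          _ ≤ ((R : ℝ) + 2) * x * (P * c0) := by
              apply mul_le_mul_of_nonneg_left _ (by positivity)
              exact hb2.trans (mul_le_mul_of_nonneg_left hb3 hP0)
    have htot : ((T.image (fun t => round (lam (i + (w + 1)) * a t))).card : ℝ) ≤
        ((Tg.image (fun t => round (lam (i + (w + 1)) * a t))).card : ℝ) +
        ((Tb.image (fun t => round (lam (i + (w + 1)) * a t))).card : ℝ) := by
      exact_mod_cast (card_le_card hsub).trans (card_union_le _ _)
    calc _ ≤ (((Tg.image (fun t => round (lam (i + (w + 1)) * a t))).card : ℝ) +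
        ((Tb.image (fun t => round (lam (i + (w + 1)) * a t))).card : ℝ)) * x ^ n := mul_le_mul_of_nonneg_right htot (by positivity)
      _ ≤ P * c0 + ((R : ℝ) + 2) * x * (P * c0) := by rw [add_mul]; exact add_le_add hg hb
      _ = (1 + ((R : ℝ) + 2) * x) ^ (w + 1) * c0 := by rw [hP, pow_succ]; ring

open Classical in
/-- a bad transition comes from a scale at which the frequency is far from the integers -/
lemma bad_far {R : ℕ} {lam : ℕ → ℝ} (h : Scales R lam) (δ : ℝ) (hδ0 : 0 < δ) (hδ : 2 * (1 + R) * δ ≤ 1) (i w ns : ℕ) (hw : i + w < ns) (α : ℝ) :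
    ((range w).filter (fun j => BadT lam (i + j) α)).card ≤ 2 * ((range ns).filter (fun j => Far δ (lam j * α))).card := by
  have key : ∀ j, BadT lam j α → Far δ (lam j * α) ∨ Far δ (lam (j + 1) * α) := by
    intro j hb
    by_contra hcon
    push Not at hcon
    obtain ⟨h1, h2⟩ := hcon
    unfold Far at h1 h2
    push Not at h1 h2
    obtain ⟨m, hm⟩ := h1
    obtain ⟨m', hm'⟩ := h2
    have hR : (0 : ℝ) ≤ R := Nat.cast_nonneg _
    have hδ2 : δ < 1 / 2 ∨ δ = 1 / 2 := by
      rcases lt_or_ge δ (1 / 2) with h3 | h3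
      · left; exact h3
      · right; nlinarith
    have hδ3 : δ ≤ 1 / 2 := by rcases hδ2 with h3 | h3 <;> linarith
    have e1 : round (lam j * α) = m := round_eq_of _ _ (by rw [abs_sub_comm]; linarith)
    have e2 : round (lam (j + 1) * α) = m' := round_eq_of _ _ (by rw [abs_sub_comm]; linarith)
    apply hb
    rw [e1, e2]
    have h0 := h.pos j
    have hp := h.pos (j + 1)
    have hθ : lam (j + 1) / lam j ≤ R := by rw [div_le_iff₀ h0]; exact h.ratio j
    have hθ0 : 0 ≤ lam (j + 1) / lam j := by positivity
    have e3 : (m' : ℝ) - lam (j + 1) / lam j * m =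
        ((m' : ℝ) - lam (j + 1) * α) + lam (j + 1) / lam j * (lam j * α - m) := by
      field_simp
      ring
    rw [e3]
    refine lt_of_le_of_lt (abs_add_le _ _) ?_
    rw [abs_mul, abs_of_nonneg hθ0, abs_sub_comm]
    have e4 : lam (j + 1) / lam j * |lam j * α - m| ≤ R * δ := mul_le_mul hθ hm.le (abs_nonneg _) hR
    linarith
  have hsub : (range w).filter (fun j => BadT lam (i + j) α) ⊆
      ((range w).filter (fun j => Far δ (lam (i + j) * α))) ∪ ((range w).filter (fun j => Far δ (lam (i + j + 1) * α))) := by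
    intro j hj
    rw [mem_filter] at hj
    rw [mem_union, mem_filter, mem_filter]
    rcases key _ hj.2 with h1 | h1
    · left; exact ⟨hj.1, h1⟩
    · right; exact ⟨hj.1, h1⟩
  have c1 : ((range w).filter (fun j => Far δ (lam (i + j) * α))).card ≤ ((range ns).filter (fun j => Far δ (lam j * α))).card := by
    apply card_le_card_of_injOn (fun j => i + j)
    · intro j hj
      rw [mem_coe, mem_filter, mem_range] at hj
      rw [mem_coe, mem_filter, mem_range]
      refine ⟨?_, hj.2⟩
      show i + j < ns
      omega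
    · intro j _ j' _ hjj
      simp only at hjj
      omega
  have c2 : ((range w).filter (fun j => Far δ (lam (i + j + 1) * α))).card ≤ ((range ns).filter (fun j => Far δ (lam j * α))).card := by
    apply card_le_card_of_injOn (fun j => i + j + 1)
    · intro j hj
      rw [mem_coe, mem_filter, mem_range] at hj
      rw [mem_coe, mem_filter, mem_range]
      refine ⟨?_, hj.2⟩
      show i + j + 1 < ns
      omega
    · intro j _ j' _ hjj
      simp only at hjj
      omega
  have := (card_le_card hsub).trans (card_union_le _ _)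
  omega

lemma scales_pow {R : ℕ} {lam : ℕ → ℝ} (h : Scales R lam) (i w : ℕ) : 2 ^ w * lam i ≤ lam (i + w) := by
  induction w with
  | zero => simp
  | succ w ih =>
    have := h.two (i + w)
    rw [pow_succ, ← Nat.add_assoc]
    linarith

end Pool.Agent.HP84.SP
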