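import Mathlib

set_option autoImplicit false

/-! Frequencies near rational numbers, and thin sets of frequencies. -/

namespace Pool.Agent.HP84.SP
open Finset

/-- the frequency `r / M` lies on an arc around a rational number with a denominator at most `Q` -/
def Maj (X M Q r : ℕ) : Prop :=
  ∃ q : ℕ, 1 ≤ q ∧ q ≤ Q ∧ ∃ c : ℤ, |(r : ℝ) / M - c / q| ≤ Q / (q * X)

/-- thin sets of frequencies -/
structure Thin (b A K : ℕ) (S : Finset ℕ) : Prop where
  small : S.card ^ 32 ≤ b ^ K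
  maj : ∀ Q : ℕ, K ^ (2 * A) ≤ Q → Q ^ 16 ≤ b ^ K → ∀ S' ⊆ S, (∀ r ∈ S', Maj (b ^ K) (b ^ (K + 1)) Q r) → S'.card ^ 2 ≤ Q

end Pool.Agent.HP84.SP
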