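import Pool.Agent.HP84.SP.Count
import Pool.Agent.HP84.SP.Defs

set_option autoImplicit false

/-! The frequencies at which almost all the multiples `lam j * α` are near integers form a thin set. -/

namespace Pool.Agent.HP84.SP
open Finset

/-- natural numbers in a short interval -/
lemma card_interval (T : Finset ℕ) (ℓ : ℝ) (hℓ : 0 ≤ ℓ) (h : ∀ r ∈ T, ∀ r' ∈ T, (r : ℝ) - r' ≤ ℓ) : (T.card : ℝ) ≤ ℓ + 1 := by
  rcases T.eq_empty_or_nonempty with he | hne
  · rw [he]; simp; linarith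
  · have h1 : T ⊆ Icc (T.min' hne) (T.max' hne) := fun r hr => mem_Icc.2 ⟨T.min'_le r hr, T.le_max' r hr⟩
    have h2 := card_le_card h1
    rw [Nat.card_Icc] at h2
    have h3 := h _ (T.max'_mem hne) _ (T.min'_mem hne)
    have h4 : T.min' hne ≤ T.max' hne := T.min'_le _ (T.max'_mem hne)
    have h5 : ((T.max' hne + 1 - T.min' hne : ℕ) : ℝ) = (T.max' hne : ℝ) + 1 - (T.min' hne : ℝ) := by
      rw [Nat.cast_sub (by omega)]; push_cast; ring
    have h6 : (T.card : ℝ) ≤ ((T.max' hne + 1 - T.min' hne : ℕ) : ℝ) := by exact_mod_cast h2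
    rw [h5] at h6
    linarith

open Classical in
/-- the last step: the numerators with the same nearest integer -/
lemma last_step (T : Finset ℕ) (M r1 : ℕ) (hM : 1 ≤ M) (l : ℝ) (hl : 0 < l) (c4 : ℕ) (hc : (M : ℝ) / l + 1 ≤ c4) :
    T.card ≤ c4 * (T.image (fun r : ℕ => round (l * (((r : ℝ) - r1) / M)))).card := by
  apply card_le_mul_card_image
  intro v _
  have hM0 : (0 : ℝ) < M := by exact_mod_cast hM
  have h1 := card_interval (T.filter (fun r : ℕ => round (l * (((r : ℝ) - r1) / M)) = v)) ((M : ℝ) / l) (by positivity) (by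
    intro r hr r' hr'
    rw [mem_filter] at hr hr'
    have e1 := abs_sub_round (l * (((r : ℝ) - r1) / M))
    have e2 := abs_sub_round (l * (((r' : ℝ) - r1) / M))
    rw [hr.2] at e1
    rw [hr'.2] at e2
    rw [abs_le] at e1 e2
    have e3 : l * (((r : ℝ) - r1) / M) - l * (((r' : ℝ) - r1) / M) ≤ 1 := by linarith [e1.2, e2.1]
    have e4 : l * (((r : ℝ) - r1) / M) - l * (((r' : ℝ) - r1) / M) = l * ((r : ℝ) - r') / M := by
      field_simp
      ring
    rw [e4, div_le_one hM0] at e3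
    rw [le_div_iff₀ hl]
    linarith)
  have : ((T.filter (fun r : ℕ => round (l * (((r : ℝ) - r1) / M)) = v)).card : ℝ) ≤ c4 := h1.trans hc
  exact_mod_cast this

/-- the values of the nearest integer on a bounded interval -/
lemma image_bound (T : Finset ℕ) (a : ℕ → ℝ) (l y : ℝ) (n : ℕ) (h : ∀ r ∈ T, |l * a r - y| ≤ n) :
    (T.image (fun r => round (l * a r))).card ≤ 2 * n + 3 := by
  have h1 : T.image (fun r => round (l * a r)) ⊆ Icc (round y - (n + 1)) (round y + (n + 1)) := by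
    intro m hm
    rw [mem_image] at hm
    obtain ⟨r, hr, rfl⟩ := hm
    have e1 := h r hr
    have e2 := abs_sub_round (l * a r)
    have e3 := abs_sub_round y
    rw [abs_le] at e1 e2 e3
    rw [mem_Icc]
    have h2 : (round y : ℝ) - (n + 1) ≤ round (l * a r) := by linarith [e1.1, e2.2, e3.1]
    have h3 : (round (l * a r) : ℝ) ≤ round y + (n + 1) := by linarith [e1.2, e2.1, e3.2]
    constructor
    · exact_mod_cast h2
    · exact_mod_cast h3
  refine (card_le_card h1).trans ?_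
  rw [Int.card_Icc]
  omega

lemma scales_mono {R : ℕ} {lam : ℕ → ℝ} (h : Scales R lam) (i j : ℕ) (hij : i ≤ j) : lam i ≤ lam j := by
  obtain ⟨w, rfl⟩ : ∃ w, j = i + w := ⟨j - i, by omega⟩
  have h1 := scales_pow h i w
  have h2 : (1 : ℝ) ≤ 2 ^ w := one_le_pow₀ (by norm_num)
  nlinarith [h.pos i]

open Classical in
/-- the total number of frequencies: `N4` bounds the number of the bad transitions -/
lemma total_count {R : ℕ} {lam : ℕ → ℝ} (h : Scales R lam) (x : ℝ) (hx0 : 0 < x) (hx1 : x ≤ 1) (M r1 l C c4 N4 : ℕ) (hM : 1 ≤ M)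
    (hC : lam 0 ≤ C) (hc : (M : ℝ) / lam l + 1 ≤ c4) (T : Finset ℕ) (hT1 : ∀ r ∈ T, |((r : ℝ) - r1) / M| ≤ 1)
    (hT : ∀ r ∈ T, ((range l).filter (fun j => BadT lam (0 + j) (((r : ℝ) - r1) / M))).card ≤ N4) :
    (T.card : ℝ) * x ^ N4 ≤ c4 * ((1 + ((R : ℝ) + 2) * x) ^ l * (2 * C + 3)) := by
  have h1 := last_step T M r1 hM (lam l) (h.pos l) c4 hc
  have h2 := main_count h x hx0 hx1 (fun r : ℕ => ((r : ℝ) - r1) / M) 0 l N4 T hT
  rw [Nat.zero_add] at h2
  have h3 := image_bound T (fun r : ℕ => ((r : ℝ) - r1) / M) (lam 0) 0 C (by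
    intro r hr
    rw [sub_zero, abs_mul, abs_of_pos (h.pos 0)]
    have := hT1 r hr
    have h0 := h.pos 0
    calc lam 0 * |((r : ℝ) - r1) / M| ≤ lam 0 * 1 := mul_le_mul_of_nonneg_left this h0.le
      _ ≤ C := by rw [mul_one]; exact hC)
  have h4 : (T.card : ℝ) ≤ c4 * ((T.image (fun r : ℕ => round (lam l * (((r : ℝ) - r1) / M)))).card : ℝ) := by exact_mod_cast h1
  have h5 : ((T.image (fun r : ℕ => round (lam 0 * (((r : ℝ) - r1) / M)))).card : ℝ) ≤ 2 * C + 3 := by exact_mod_cast h3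
  have hxn : 0 ≤ x ^ N4 := by positivity
  calc (T.card : ℝ) * x ^ N4 ≤ c4 * ((T.image (fun r : ℕ => round (lam l * (((r : ℝ) - r1) / M)))).card : ℝ) * x ^ N4 :=
        mul_le_mul_of_nonneg_right h4 hxn
    _ = c4 * (((T.image (fun r : ℕ => round (lam l * (((r : ℝ) - r1) / M)))).card : ℝ) * x ^ N4) := by ring
    _ ≤ c4 * ((1 + ((R : ℝ) + 2) * x) ^ l * _) := mul_le_mul_of_nonneg_left h2 (Nat.cast_nonneg _)
    _ ≤ c4 * ((1 + ((R : ℝ) + 2) * x) ^ l * (2 * C + 3)) := by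
        apply mul_le_mul_of_nonneg_left _ (Nat.cast_nonneg _)
        exact mul_le_mul_of_nonneg_left h5 (by positivity)

open Classical in
/-- the number of frequencies on the arcs -/
lemma arc_count {R : ℕ} {lam : ℕ → ℝ} (h : Scales R lam) (x : ℝ) (hx0 : 0 < x) (hx1 : x ≤ 1) (M r1 l J I C c4 N4 : ℕ) (hM : 1 ≤ M)
    (hJ : J ≤ l) (hI : I ≤ l)
    (hC : lam 0 ≤ C) (hc : (M : ℝ) / lam l + 1 ≤ c4) (T : Finset ℕ) (hT1 : ∀ r ∈ T, |((r : ℝ) - r1) / M| ≤ 1)
    (hT : ∀ r ∈ T, ∀ i w, i + w ≤ l → ((range w).filter (fun j => BadT lam (i + j) (((r : ℝ) - r1) / M))).card ≤ N4)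
    (ρ : ℕ → ℝ) (κ σ : ℝ) (hρ : ∀ r ∈ T, |(r : ℝ) / M - ρ r| ≤ κ) (hσ : ∀ r ∈ T, ∀ r' ∈ T, ρ r ≠ ρ r' → σ ≤ |ρ r - ρ r'|)
    (hJσ : 1 / lam J + 2 * κ < σ) (hIκ : lam I * (2 * κ) ≤ 1) :
    (T.card : ℝ) * x ^ (2 * N4) ≤ c4 * (5 * (2 * C + 3)) * (1 + ((R : ℝ) + 2) * x) ^ (J + (l - I)) := by
  have hM0 : (0 : ℝ) < M := by exact_mod_cast hM
  set P : ℝ := 1 + ((R : ℝ) + 2) * x with hP
  have hP1 : 1 ≤ P := by rw [hP]; have : 0 ≤ ((R : ℝ) + 2) * x := by positivity
                         linarith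
  have hP0 : 0 < P := by linarith
  have hxn : 0 < x ^ N4 := by positivity
  -- the fibres
  have hfib : ∀ v ∈ T.image (fun r : ℕ => round (lam J * (((r : ℝ) - r1) / M))),
      ((T.filter (fun r : ℕ => round (lam J * (((r : ℝ) - r1) / M)) = v)).card : ℝ) ≤ c4 * (P ^ (l - I) * 5) / x ^ N4 := by
    intro v _
    set Tv := T.filter (fun r : ℕ => round (lam J * (((r : ℝ) - r1) / M)) = v) with hTv
    have hclose : ∀ r ∈ Tv, ∀ r' ∈ Tv, |((r : ℝ) - r1) / M - ((r' : ℝ) - r1) / M| ≤ 2 * κ := by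
      intro r hr r' hr'
      rw [hTv, mem_filter] at hr hr'
      have e1 := abs_sub_round (lam J * (((r : ℝ) - r1) / M))
      have e2 := abs_sub_round (lam J * (((r' : ℝ) - r1) / M))
      rw [hr.2] at e1
      rw [hr'.2] at e2
      have hlJ := h.pos J
      have e3 : |lam J * (((r : ℝ) - r1) / M - ((r' : ℝ) - r1) / M)| ≤ 1 := by
        rw [mul_sub]
        rw [abs_le] at e1 e2 ⊢
        constructor <;> linarith [e1.1, e1.2, e2.1, e2.2]
      rw [abs_mul, abs_of_pos hlJ] at e3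
      have e4 : |((r : ℝ) - r1) / M - ((r' : ℝ) - r1) / M| ≤ 1 / lam J := by
        rw [le_div_iff₀ hlJ]; linarith
      have e5 : ((r : ℝ) - r1) / M - ((r' : ℝ) - r1) / M = (r : ℝ) / M - (r' : ℝ) / M := by
        field_simp; ring
      have e6 := hρ r hr.1
      have e7 := hρ r' hr'.1
      have hρρ : ρ r = ρ r' := by
        by_contra hne
        have e8 := hσ r hr.1 r' hr'.1 hne
        have e9 : |ρ r - ρ r'| ≤ 1 / lam J + 2 * κ := by
          rw [e5] at e4
          have : ρ r - ρ r' = -((r : ℝ) / M - ρ r) + ((r : ℝ) / M - (r' : ℝ) / M) + ((r' : ℝ) / M - ρ r') := by ring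
          rw [this]
          refine (abs_add_le _ _).trans ?_
          have := abs_add_le (-((r : ℝ) / M - ρ r)) ((r : ℝ) / M - (r' : ℝ) / M)
          rw [abs_neg] at this
          linarith
        linarith
      rw [e5]
      have : (r : ℝ) / M - (r' : ℝ) / M = ((r : ℝ) / M - ρ r) - ((r' : ℝ) / M - ρ r') := by rw [hρρ]; ring
      rw [this]
      have := abs_sub ((r : ℝ) / M - ρ r) ((r' : ℝ) / M - ρ r')
      linarith
    have hTvsub : ∀ r ∈ Tv, r ∈ T := fun r hr => (mem_filter.1 hr).1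
    have h1 := last_step Tv M r1 hM (lam l) (h.pos l) c4 hc
    have h2 := main_count h x hx0 hx1 (fun r : ℕ => ((r : ℝ) - r1) / M) I (l - I) N4 Tv (fun r hr =>
      hT r (hTvsub r hr) I (l - I) (by omega))
    rw [show I + (l - I) = l by omega] at h2
    have h3 : (Tv.image (fun r : ℕ => round (lam I * (((r : ℝ) - r1) / M)))).card ≤ 5 := by
      rcases Tv.eq_empty_or_nonempty with he | ⟨r0, hr0⟩
      · rw [he]; simp
      · have := image_bound Tv (fun r : ℕ => ((r : ℝ) - r1) / M) (lam I) (lam I * (((r0 : ℝ) - r1) / M)) 1 (by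
          intro r hr
          have e1 := hclose r hr r0 hr0
          have hlI := h.pos I
          rw [← mul_sub, abs_mul, abs_of_pos hlI]
          push_cast
          exact (mul_le_mul_of_nonneg_left e1 hlI.le).trans hIκ)
        omega
    have h4 : (Tv.card : ℝ) ≤ c4 * ((Tv.image (fun r : ℕ => round (lam l * (((r : ℝ) - r1) / M)))).card : ℝ) := by exact_mod_cast h1
    have h5 : ((Tv.image (fun r : ℕ => round (lam I * (((r : ℝ) - r1) / M)))).card : ℝ) ≤ 5 := by exact_mod_cast h3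
    rw [le_div_iff₀ hxn]
    calc (Tv.card : ℝ) * x ^ N4 ≤ c4 * ((Tv.image (fun r : ℕ => round (lam l * (((r : ℝ) - r1) / M)))).card : ℝ) * x ^ N4 :=
          mul_le_mul_of_nonneg_right h4 hxn.le
      _ = c4 * (((Tv.image (fun r : ℕ => round (lam l * (((r : ℝ) - r1) / M)))).card : ℝ) * x ^ N4) := by ring
      _ ≤ c4 * (P ^ (l - I) * _) := mul_le_mul_of_nonneg_left h2 (Nat.cast_nonneg _)
      _ ≤ c4 * (P ^ (l - I) * 5) := by
          apply mul_le_mul_of_nonneg_left _ (Nat.cast_nonneg _)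
          exact mul_le_mul_of_nonneg_left h5 (by positivity)
  have h1 : (T.card : ℝ) = ∑ v ∈ T.image (fun r : ℕ => round (lam J * (((r : ℝ) - r1) / M))),
      ((T.filter (fun r : ℕ => round (lam J * (((r : ℝ) - r1) / M)) = v)).card : ℝ) := by
    exact_mod_cast card_eq_sum_card_image (fun r : ℕ => round (lam J * (((r : ℝ) - r1) / M))) T
  have h2 : (T.card : ℝ) ≤ ((T.image (fun r : ℕ => round (lam J * (((r : ℝ) - r1) / M)))).card : ℝ) * (c4 * (P ^ (l - I) * 5) / x ^ N4) := by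
    rw [h1]
    refine (sum_le_sum hfib).trans (le_of_eq ?_)
    rw [sum_const, nsmul_eq_mul]
  have h3 := main_count h x hx0 hx1 (fun r : ℕ => ((r : ℝ) - r1) / M) 0 J N4 T (fun r hr => hT r hr 0 J (by omega))
  rw [Nat.zero_add] at h3
  have h4 := image_bound T (fun r : ℕ => ((r : ℝ) - r1) / M) (lam 0) 0 C (by
    intro r hr
    rw [sub_zero, abs_mul, abs_of_pos (h.pos 0)]
    have := hT1 r hr
    have h0 := h.pos 0
    calc lam 0 * |((r : ℝ) - r1) / M| ≤ lam 0 * 1 := mul_le_mul_of_nonneg_left this h0.le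
      _ ≤ C := by rw [mul_one]; exact hC)
  have h5 : ((T.image (fun r : ℕ => round (lam 0 * (((r : ℝ) - r1) / M)))).card : ℝ) ≤ 2 * C + 3 := by exact_mod_cast h4
  have h6 : ((T.image (fun r : ℕ => round (lam J * (((r : ℝ) - r1) / M)))).card : ℝ) * x ^ N4 ≤ P ^ J * (2 * C + 3) :=
    h3.trans (mul_le_mul_of_nonneg_left h5 (by positivity))
  have h7 : (T.card : ℝ) * x ^ N4 ≤ ((T.image (fun r : ℕ => round (lam J * (((r : ℝ) - r1) / M)))).card : ℝ) * (c4 * (P ^ (l - I) * 5)) := by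
    calc (T.card : ℝ) * x ^ N4 ≤ _ := mul_le_mul_of_nonneg_right h2 hxn.le
      _ = _ := by field_simp
  calc (T.card : ℝ) * x ^ (2 * N4) = ((T.card : ℝ) * x ^ N4) * x ^ N4 := by rw [two_mul, pow_add]; ring
    _ ≤ ((T.image (fun r : ℕ => round (lam J * (((r : ℝ) - r1) / M)))).card : ℝ) * (c4 * (P ^ (l - I) * 5)) * x ^ N4 :=
        mul_le_mul_of_nonneg_right h7 hxn.le
    _ = (((T.image (fun r : ℕ => round (lam J * (((r : ℝ) - r1) / M)))).card : ℝ) * x ^ N4) * (c4 * (P ^ (l - I) * 5)) := by ring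
    _ ≤ (P ^ J * (2 * C + 3)) * (c4 * (P ^ (l - I) * 5)) := mul_le_mul_of_nonneg_right h6 (by positivity)
    _ = _ := by rw [pow_add]; ring

end Pool.Agent.HP84.SP
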