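import Pool.Agent.HP84.SP.Count2

set_option autoImplicit false

/-! The frequencies at which almost all the multiples `lam j * α` are near integers form a thin set: numbers. -/

namespace Pool.Agent.HP84.SP
open Finset

open Classical in
/-- the number of scales up to `l` at which `α` is far from the integers -/
noncomputable def FarC (δ : ℝ) (lam : ℕ → ℝ) (l : ℕ) (α : ℝ) : ℕ := ((range (l + 1)).filter (fun j => Far δ (lam j * α))).card

/-- differences -/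
lemma farC_sub (δ : ℝ) (lam : ℕ → ℝ) (l M r0 r r1 : ℕ) (hM : 1 ≤ M) (hz : ∀ j ≤ l, ∃ z : ℤ, lam j = z) :
    FarC (2 * δ) lam l (((r : ℝ) - r1) / M) ≤
      FarC δ lam l ((((r + r0) % M : ℕ) : ℝ) / M) + FarC δ lam l ((((r1 + r0) % M : ℕ) : ℝ) / M) := by
  classical
  unfold FarC
  refine le_trans (card_le_card ?_) (card_union_le _ _)
  intro j hj
  rw [mem_filter] at hj
  rw [mem_union, mem_filter, mem_filter]
  by_contra hcon
  rw [not_or] at hcon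
  obtain ⟨h1, h2⟩ := hcon
  have h1' : ¬ Far δ (lam j * ((((r + r0) % M : ℕ) : ℝ) / M)) := fun h => h1 ⟨hj.1, h⟩
  have h2' : ¬ Far δ (lam j * ((((r1 + r0) % M : ℕ) : ℝ) / M)) := fun h => h2 ⟨hj.1, h⟩
  unfold Far at h1' h2'
  push Not at h1' h2'
  obtain ⟨m, hm⟩ := h1'
  obtain ⟨m', hm'⟩ := h2'
  obtain ⟨z, hz⟩ := hz j (by have := mem_range.1 hj.1; omega)
  have hM0 : (0 : ℝ) < M := by exact_mod_cast hM
  have e1 : ((r + r0 : ℕ) : ℝ) = M * (((r + r0) / M : ℕ) : ℝ) + (((r + r0) % M : ℕ) : ℝ) := by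
    exact_mod_cast (Nat.div_add_mod (r + r0) M).symm
  have e2 : ((r1 + r0 : ℕ) : ℝ) = M * (((r1 + r0) / M : ℕ) : ℝ) + (((r1 + r0) % M : ℕ) : ℝ) := by
    exact_mod_cast (Nat.div_add_mod (r1 + r0) M).symm
  obtain ⟨a1, ha1⟩ : ∃ a1, a1 = (r + r0) / M := ⟨_, rfl⟩
  obtain ⟨a2, ha2⟩ : ∃ a2, a2 = (r1 + r0) / M := ⟨_, rfl⟩
  obtain ⟨d1, hd1⟩ : ∃ d1, d1 = (r + r0) % M := ⟨_, rfl⟩
  obtain ⟨d2, hd2⟩ : ∃ d2, d2 = (r1 + r0) % M := ⟨_, rfl⟩
  rw [← hd1] at hm e1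
  rw [← hd2] at hm' e2
  rw [← ha1] at e1
  rw [← ha2] at e2
  have h3 := hj.2 (m - m' + z * ((a1 : ℤ) - (a2 : ℤ)))
  have e3 : lam j * (((r : ℝ) - r1) / M) - ((m - m' + z * ((a1 : ℤ) - (a2 : ℤ)) : ℤ) : ℝ) =
      (lam j * ((d1 : ℝ) / M) - m) - (lam j * ((d2 : ℝ) / M) - m') := by
    have e4 : ((r : ℝ) - r1) / M = (((r + r0 : ℕ) : ℝ) - ((r1 + r0 : ℕ) : ℝ)) / M := by push_cast; ring
    rw [e4, e1, e2, hz]
    push_cast
    field_simp
    ring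
  rw [e3] at h3
  have := abs_sub (lam j * ((d1 : ℝ) / M) - m) (lam j * ((d2 : ℝ) / M) - m')
  linarith

lemma p64 : (129 / 128 : ℝ) ^ 64 ≤ 2 := by norm_num

lemma log_pow_bd (K s D e : ℕ) (hK : 1 ≤ K) : 2 ^ (s * (e * (D * (Nat.log 2 K + 1)))) ≤ (2 * K) ^ (s * e * D) := by
  rw [show s * (e * (D * (Nat.log 2 K + 1))) = (Nat.log 2 K + 1) * (s * e * D) by ring, pow_mul]
  apply Nat.pow_le_pow_left
  rw [pow_succ, mul_comm]
  exact Nat.mul_le_mul_left _ (Nat.pow_log_le_self 2 (by omega))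

/-- the choice of the index at the beginning -/
lemma exists_J {R : ℕ} {lam : ℕ → ℝ} (h : Scales R lam) (l : ℕ) (y : ℝ) (h0 : 1 ≤ lam 0) (hl : y ≤ lam l) :
    ∃ J ≤ l, y ≤ lam J ∧ (2 : ℝ) ^ J ≤ 2 * y ∨ (J = 0 ∧ y ≤ lam J) := by
  classical
  have hex : ∃ J, y ≤ lam J := ⟨l, hl⟩
  have hJ := Nat.find_spec hex
  refine ⟨Nat.find hex, Nat.find_min' hex hl, ?_⟩
  rcases Nat.eq_zero_or_pos (Nat.find hex) with h1 | h1
  · right
    exact ⟨h1, hJ⟩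
  · left
    refine ⟨hJ, ?_⟩
    obtain ⟨i, hi⟩ : ∃ i, Nat.find hex = i + 1 := ⟨Nat.find hex - 1, by omega⟩
    have h2 : ¬ y ≤ lam i := Nat.find_min hex (by omega)
    push Not at h2
    have h3 := scales_pow h 0 i
    rw [Nat.zero_add] at h3
    have h4 : (2 : ℝ) ^ i ≤ lam i := by
      have : (0 : ℝ) < 2 ^ i := by positivity
      nlinarith
    rw [hi, pow_succ]
    linarith

/-- the choice of the index at the end -/
lemma exists_I {R : ℕ} {lam : ℕ → ℝ} (h : Scales R lam) (l : ℕ) (y c : ℝ) (hy : 0 < y) (h0 : lam 0 ≤ y) (hc : 1 ≤ c) (hl : lam l ≤ c * y) :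
    ∃ I ≤ l, lam I ≤ y ∧ (2 : ℝ) ^ (l - I) ≤ 2 * c := by
  classical
  obtain ⟨I, hI⟩ : ∃ I, I = Nat.findGreatest (fun i => lam i ≤ y) l := ⟨_, rfl⟩
  have h1 : lam I ≤ y := by
    rw [hI]
    exact Nat.findGreatest_spec (P := fun i => lam i ≤ y) (Nat.zero_le l) h0
  have h2 : I ≤ l := by rw [hI]; exact Nat.findGreatest_le l
  refine ⟨I, h2, h1, ?_⟩
  rcases Nat.lt_or_ge I l with h3 | h3
  · have h4 : ¬ lam (I + 1) ≤ y := by
      intro h5
      have := Nat.le_findGreatest (P := fun i => lam i ≤ y) (by omega : I + 1 ≤ l) h5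
      omega
    push Not at h4
    have h5 := scales_pow h (I + 1) (l - I - 1)
    rw [show I + 1 + (l - I - 1) = l by omega] at h5
    have h6 : (2 : ℝ) ^ (l - I) = 2 * 2 ^ (l - I - 1) := by
      rw [show l - I = (l - I - 1) + 1 by omega, pow_succ, Nat.add_sub_cancel, mul_comm]
    rw [h6]
    have h7 : (0 : ℝ) < 2 ^ (l - I - 1) := by positivity
    have h8 : (2 : ℝ) ^ (l - I - 1) * y ≤ c * y := by
      calc (2 : ℝ) ^ (l - I - 1) * y ≤ 2 ^ (l - I - 1) * lam (I + 1) := mul_le_mul_of_nonneg_left h4.le h7.le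
        _ ≤ lam l := h5
        _ ≤ c * y := hl
    have h9 := le_of_mul_le_mul_right h8 hy
    linarith
  · have : l - I = 0 := by omega
    rw [this, pow_zero]
    linarith

lemma num_total (S y g p z X c5 : ℝ) (hS : 0 ≤ S) (hy : 0 ≤ y) (hz : 0 ≤ z) (hX : 0 ≤ X)
    (h1 : S * y ≤ g * p) (h2 : 1 ≤ y ^ 64 * z) (h3 : p ^ 64 ≤ c5 * X) (h4 : g ^ 64 * c5 * z ≤ X) : S ^ 64 ≤ X ^ 2 := by
  have e1 : (S * y) ^ 64 ≤ (g * p) ^ 64 := pow_le_pow_left₀ (mul_nonneg hS hy) h1 64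
  rw [mul_pow, mul_pow] at e1
  have hS64 : 0 ≤ S ^ 64 := pow_nonneg hS 64
  have hg64 : 0 ≤ g ^ 64 := by
    have : g ^ 64 = (g ^ 32) ^ 2 := by rw [← pow_mul]
    rw [this]; exact sq_nonneg _
  obtain ⟨S', hS'⟩ : ∃ S', S' = S ^ 64 := ⟨_, rfl⟩
  obtain ⟨y', hy'⟩ : ∃ y', y' = y ^ 64 := ⟨_, rfl⟩
  obtain ⟨g', hg'⟩ : ∃ g', g' = g ^ 64 := ⟨_, rfl⟩
  obtain ⟨p', hp'⟩ : ∃ p', p' = p ^ 64 := ⟨_, rfl⟩
  rw [← hS', ← hy', ← hg', ← hp'] at e1
  rw [← hy'] at h2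
  rw [← hp'] at h3
  rw [← hg'] at h4 hg64
  rw [← hS'] at hS64 ⊢
  calc S' ≤ S' * (y' * z) := le_mul_of_one_le_right hS64 h2
    _ = (S' * y') * z := by ring
    _ ≤ (g' * p') * z := mul_le_mul_of_nonneg_right e1 hz
    _ ≤ (g' * (c5 * X)) * z := by gcongr
    _ = (g' * c5 * z) * X := by ring
    _ ≤ X * X := mul_le_mul_of_nonneg_right h4 hX
    _ = X ^ 2 := by ring

lemma num_arc (S y g p z Q c : ℝ) (hS : 0 ≤ S) (hy : 0 ≤ y) (hz : 0 ≤ z) (hQ : 1 ≤ Q)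
    (h1 : S * y ≤ g * p) (h2 : 1 ≤ y ^ 64 * z) (h3 : p ^ 64 ≤ c * Q ^ 3) (h4 : g ^ 64 * c ≤ Q) (h5 : z ≤ Q) :
    S ^ 64 ≤ Q ^ 32 := by
  have e1 : (S * y) ^ 64 ≤ (g * p) ^ 64 := pow_le_pow_left₀ (mul_nonneg hS hy) h1 64
  rw [mul_pow, mul_pow] at e1
  have hS64 : 0 ≤ S ^ 64 := pow_nonneg hS 64
  have hg64 : 0 ≤ g ^ 64 := by
    have : g ^ 64 = (g ^ 32) ^ 2 := by rw [← pow_mul]
    rw [this]; exact sq_nonneg _
  obtain ⟨S', hS'⟩ : ∃ S', S' = S ^ 64 := ⟨_, rfl⟩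
  obtain ⟨y', hy'⟩ : ∃ y', y' = y ^ 64 := ⟨_, rfl⟩
  obtain ⟨g', hg'⟩ : ∃ g', g' = g ^ 64 := ⟨_, rfl⟩
  obtain ⟨p', hp'⟩ : ∃ p', p' = p ^ 64 := ⟨_, rfl⟩
  rw [← hS', ← hy', ← hg', ← hp'] at e1
  rw [← hy'] at h2
  rw [← hp'] at h3
  rw [← hg'] at h4 hg64
  rw [← hS'] at hS64 ⊢
  have hQ0 : 0 ≤ Q := by linarith
  calc S' ≤ S' * (y' * z) := le_mul_of_one_le_right hS64 h2
    _ = (S' * y') * z := by ring
    _ ≤ (g' * p') * z := mul_le_mul_of_nonneg_right e1 hz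
    _ ≤ (g' * (c * Q ^ 3)) * z := by gcongr
    _ = (g' * c) * z * Q ^ 3 := by ring
    _ ≤ Q * Q * Q ^ 3 := by
        apply mul_le_mul_of_nonneg_right _ (by positivity)
        exact mul_le_mul h4 h5 hz hQ0
    _ = Q ^ 5 := by ring
    _ ≤ Q ^ 32 := pow_le_pow_right₀ hQ (by norm_num)

open Classical in
/-- the frequencies at which almost all the multiples are near integers form a thin set -/
theorem thin_scales (b R C c3 c5 D : ℕ) (hb : 2 ≤ b) (hc5 : 1 ≤ c5) : ∃ A1 : ℕ, ∀ A : ℕ, A1 ≤ A → ∃ K₀ : ℕ, ∀ K : ℕ, K₀ ≤ K →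
    ∀ (lam : ℕ → ℝ) (l : ℕ), Scales R lam → 1 ≤ lam 0 → lam 0 ≤ C → ((b ^ K : ℕ) : ℝ) ≤ c3 * lam l → lam l ≤ c5 * ((b ^ K : ℕ) : ℝ) →
    (∀ j ≤ l, ∃ z : ℤ, lam j = z) → ∀ r0 : ℕ, ∀ S : Finset ℕ,
    (∀ r ∈ S, r < b ^ (K + 1) ∧ FarC (1 / (4 * (1 + R))) lam l ((((r + r0) % b ^ (K + 1) : ℕ) : ℝ) / ((b ^ (K + 1) : ℕ) : ℝ)) ≤
      D * (Nat.log 2 K + 1)) → Thin b A K S := by
  obtain ⟨s, hs⟩ : ∃ s : ℕ, 128 * (R + 2) ≤ 2 ^ s := ⟨128 * (R + 2), Nat.lt_two_pow_self.le⟩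
  obtain ⟨g1, hg1d⟩ : ∃ g1, g1 = (b * c3 + 1) * (2 * C + 3) := ⟨_, rfl⟩
  obtain ⟨g2, hg2d⟩ : ∃ g2, g2 = (b * c3 + 1) * (5 * (2 * C + 3)) := ⟨_, rfl⟩
  have hg12 : g1 ≤ g2 := by
    rw [hg1d, hg2d]
    exact Nat.mul_le_mul_left _ (by omega)
  obtain ⟨c6, hc6⟩ : ∃ c6, c6 = g2 ^ 64 * (16 * c5) := ⟨_, rfl⟩
  have hg2 : (g2 : ℝ) ^ 64 * (16 * (c5 : ℝ)) ≤ c6 := by
    rw [hc6]; push_cast; exact le_rfl
  have hg1 : (g1 : ℝ) ^ 64 * (c5 : ℝ) ≤ c6 := by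
    refine le_trans ?_ hg2
    have q1 : (g1 : ℝ) ^ 64 ≤ (g2 : ℝ) ^ 64 := pow_le_pow_left₀ (Nat.cast_nonneg _) (by exact_mod_cast hg12) 64
    have q2 : (0 : ℝ) ≤ c5 := Nat.cast_nonneg _
    exact mul_le_mul q1 (by linarith) q2 (by positivity)
  clear hc6
  refine ⟨512 * s * D + 1, fun A hA => ?_⟩
  have hbig : ∃ k2 : ℕ, ∀ k : ℕ, k2 ≤ k → c6 * (2 * k) ^ (s * 256 * D) ≤ b ^ k := by
    have hlim := isLittleO_pow_const_const_pow_of_one_lt (R := ℝ) (s * 256 * D) (r := (b : ℝ)) (by exact_mod_cast (by omega : 1 < b))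
    have hc0 : (0 : ℝ) < 1 / ((c6 : ℝ) * 2 ^ (s * 256 * D) + 1) := by positivity
    have h2 := hlim.def hc0
    rw [Filter.eventually_atTop] at h2
    obtain ⟨k2, hk2⟩ := h2
    refine ⟨k2, fun k hk => ?_⟩
    have h3 := hk2 k hk
    rw [Real.norm_of_nonneg (by positivity), Real.norm_of_nonneg (by positivity)] at h3
    have h4 : (c6 : ℝ) * (2 * k) ^ (s * 256 * D) ≤ (b : ℝ) ^ k := by
      rw [one_div, inv_mul_eq_div, le_div_iff₀ (by positivity)] at h3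
      have h5 : 0 ≤ (k : ℝ) ^ (s * 256 * D) := by positivity
      rw [mul_pow]
      calc (c6 : ℝ) * (2 ^ (s * 256 * D) * (k : ℝ) ^ (s * 256 * D)) = (k : ℝ) ^ (s * 256 * D) * ((c6 : ℝ) * 2 ^ (s * 256 * D)) := by ring
        _ ≤ (k : ℝ) ^ (s * 256 * D) * ((c6 : ℝ) * 2 ^ (s * 256 * D) + 1) := mul_le_mul_of_nonneg_left (by linarith) h5
        _ ≤ _ := h3
    exact_mod_cast h4
  obtain ⟨k2, h2⟩ := hbig
  refine ⟨k2 + c6 + 2 * c3 + 2 * C + 4, fun K hK lam l hsc h01 h0C hl1 hl2 hz r0 S hS => ?_⟩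
  obtain ⟨X, hX⟩ : ∃ X, X = b ^ K := ⟨_, rfl⟩
  obtain ⟨M, hM⟩ : ∃ M, M = b ^ (K + 1) := ⟨_, rfl⟩
  rw [← hM] at hS
  rw [← hX] at hl1 hl2
  have hMX : M = b * X := by rw [hM, hX, pow_succ, mul_comm]
  have hKX : K < X := by rw [hX]; exact Nat.lt_pow_self (by omega)
  have hX1 : 1 ≤ X := by omega
  have hM1 : 1 ≤ M := by rw [hMX]; exact Nat.mul_pos (by omega) hX1
  have hXr : (1 : ℝ) ≤ X := by exact_mod_cast hX1
  have hX0 : (0 : ℝ) < X := by linarith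
  have hM0 : (0 : ℝ) < M := by exact_mod_cast hM1
  obtain ⟨n, hn⟩ : ∃ n, n = D * (Nat.log 2 K + 1) := ⟨_, rfl⟩
  rw [← hn] at hS
  obtain ⟨x, hx⟩ : ∃ x : ℝ, x = 1 / (128 * ((R : ℝ) + 2)) := ⟨_, rfl⟩
  have hR0 : (0 : ℝ) ≤ R := Nat.cast_nonneg _
  have hx0 : 0 < x := by rw [hx]; positivity
  have hx1 : x ≤ 1 := by
    rw [hx, div_le_one (by positivity)]
    linarith
  have hPx : 1 + ((R : ℝ) + 2) * x = 129 / 128 := by
    rw [hx]
    field_simp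
    ring
  have hxs : 1 ≤ x * 2 ^ s := by
    rw [hx, one_div, inv_mul_eq_div, le_div_iff₀ (by positivity), one_mul]
    exact_mod_cast hs
  have hlast : 0 < lam l := hsc.pos l
  have hc4 : (M : ℝ) / lam l + 1 ≤ ((b * c3 + 1 : ℕ) : ℝ) := by
    have : (M : ℝ) / lam l ≤ b * c3 := by
      rw [div_le_iff₀ hlast, hMX]
      push_cast
      calc (b : ℝ) * X ≤ b * (c3 * lam l) := mul_le_mul_of_nonneg_left hl1 (Nat.cast_nonneg _)
        _ = _ := by ring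
    push_cast
    linarith
  have hδ0 : (0 : ℝ) < 2 * (1 / (4 * (1 + R))) := by positivity
  have hδ : 2 * (1 + (R : ℝ)) * (2 * (1 / (4 * (1 + R)))) ≤ 1 := by
    have : (1 : ℝ) + R ≠ 0 := by positivity
    apply le_of_eq
    field_simp
    norm_num
  -- the bad transitions of the differences
  have hbadT : ∀ r ∈ S, ∀ r1 ∈ S, ∀ i w, i + w ≤ l → ((range w).filter (fun j => BadT lam (i + j) (((r : ℝ) - r1) / M))).card ≤ 4 * n := by
    intro r hr r1 hr1 i w hiw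
    have e1 := bad_far hsc _ hδ0 hδ i w (l + 1) (by omega) (((r : ℝ) - r1) / M)
    have e2 := farC_sub (1 / (4 * (1 + (R : ℝ)))) lam l M r0 r r1 hM1 hz
    have e3 := (hS r hr).2
    have e4 := (hS r1 hr1).2
    unfold FarC at e2 e3 e4
    omega
  have habs : ∀ r ∈ S, ∀ r1 ∈ S, |((r : ℝ) - r1) / M| ≤ 1 := by
    intro r hr r1 hr1
    rw [abs_div, abs_of_pos hM0, div_le_one hM0, abs_le]
    have e1 : (r : ℝ) < M := by exact_mod_cast (hS r hr).1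
    have e2 : (r1 : ℝ) < M := by exact_mod_cast (hS r1 hr1).1
    have e3 : (0 : ℝ) ≤ r := Nat.cast_nonneg _
    have e4 : (0 : ℝ) ≤ r1 := Nat.cast_nonneg _
    constructor <;> linarith
  have hxpow : ∀ e : ℕ, (1 : ℝ) ≤ x ^ (e * n) * ((2 * K : ℕ) : ℝ) ^ (s * e * D) := by
    intro e
    have e1 : (1 : ℝ) ≤ (x * 2 ^ s) ^ (e * n) := one_le_pow₀ hxs
    have e2 : ((2 : ℝ) ^ s) ^ (e * n) ≤ ((2 * K : ℕ) : ℝ) ^ (s * e * D) := by
      rw [← pow_mul, hn]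
      exact_mod_cast log_pow_bd K s D e (by omega)
    rw [mul_pow] at e1
    exact e1.trans (mul_le_mul_of_nonneg_left e2 (by positivity))
  have hc5r : (1 : ℝ) ≤ c5 := by exact_mod_cast hc5
  have hg1r : (g1 : ℝ) = ((b * c3 + 1 : ℕ) : ℝ) * (2 * C + 3) := by rw [hg1d]; push_cast; ring
  have hg2r : (g2 : ℝ) = ((b * c3 + 1 : ℕ) : ℝ) * (5 * (2 * C + 3)) := by rw [hg2d]; push_cast; ring
  constructor
  · -- the total number
    rcases S.eq_empty_or_nonempty with he | ⟨r1, hr1⟩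
    · rw [he]; simp
    rw [← hX]
    have h1 := total_count hsc x hx0 hx1 M r1 l C (b * c3 + 1) (4 * n) hM1 h0C hc4 S (fun r hr => habs r hr r1 hr1) (fun r hr => by
      exact hbadT r hr r1 hr1 0 l (by omega))
    rw [hPx] at h1
    have h3 : (2 : ℝ) ^ l ≤ c5 * X := by
      have e1 := scales_pow hsc 0 l
      rw [Nat.zero_add] at e1
      have : (0 : ℝ) < 2 ^ l := by positivity
      nlinarith
    have h4 : ((129 / 128 : ℝ) ^ l) ^ 64 ≤ c5 * X := by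
      rw [← pow_mul, mul_comm, pow_mul]
      exact (pow_le_pow_left₀ (by norm_num) p64 l).trans h3
    have h5 := hxpow 256
    have h7 : ((S.card : ℝ)) ^ 64 ≤ (X : ℝ) ^ 2 := by
      refine num_total _ (x ^ (4 * n)) g1 ((129 / 128 : ℝ) ^ l) (((2 * K : ℕ) : ℝ) ^ (s * 256 * D)) X c5
        (Nat.cast_nonneg _) (by positivity) (by positivity) hX0.le (h1.trans (le_of_eq (by rw [hg1r]; ring))) ?_ h4 ?_
      · rw [← pow_mul, show 4 * n * 64 = 256 * n by ring]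
        exact h5
      · have e2 : ((c6 : ℝ)) * ((2 * K : ℕ) : ℝ) ^ (s * 256 * D) ≤ X := by
          rw [hX]
          exact_mod_cast h2 K (by omega)
        refine le_trans (mul_le_mul_of_nonneg_right ?_ (by positivity)) e2
        exact hg1
    have h8 : (S.card ^ 32) ^ 2 ≤ X ^ 2 := by
      rw [← pow_mul]
      exact_mod_cast h7
    exact (Nat.pow_le_pow_iff_left (by norm_num)).1 h8
  · -- the arcs
    intro Q hQ1 hQ2 S' hS' hmaj
    rcases S'.eq_empty_or_nonempty with he | ⟨r1, hr1'⟩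
    · rw [he]; simp
    have hr1 := hS' hr1'
    rw [← hX] at hQ2
    rw [← hX, ← hM] at hmaj
    have hK2 : 2 ≤ K := by omega
    have hKA : K ≤ K ^ (2 * A) := Nat.le_self_pow (by omega) K
    have hKQ : K ≤ Q := hKA.trans hQ1
    have hQr : (1 : ℝ) ≤ Q := by exact_mod_cast (by omega : 1 ≤ Q)
    have hQ0 : (0 : ℝ) < Q := by linarith
    choose! q hq1 hq2 c hc using hmaj
    have hqr : ∀ r ∈ S', (1 : ℝ) ≤ q r := fun r hr => by exact_mod_cast hq1 r hr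
    have hqQ : ∀ r ∈ S', (q r : ℝ) ≤ Q := fun r hr => by exact_mod_cast hq2 r hr
    have hQ16 : (Q : ℝ) ^ 16 ≤ X := by exact_mod_cast hQ2
    have hc6Q : (c6 : ℝ) ≤ Q := by exact_mod_cast (by omega : c6 ≤ Q)
    have h4Q : (4 : ℝ) ≤ Q := by exact_mod_cast (by omega : 4 ≤ Q)
    have hc3Q : 2 * (c3 : ℝ) ≤ Q := by exact_mod_cast (by omega : 2 * c3 ≤ Q)
    have hCQ : 2 * (C : ℝ) ≤ Q := by exact_mod_cast (by omega : 2 * C ≤ Q)
    have hpw : ∀ i : ℕ, i ≤ 16 → (Q : ℝ) ^ i ≤ X := fun i hi => (pow_le_pow_right₀ hQr hi).trans hQ16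
    -- the indices
    obtain ⟨J, hJl, hJ⟩ := exists_J hsc l (2 * (Q : ℝ) ^ 2) h01 (by
      have e1 := hpw 3 (by norm_num)
      have e2 : 2 * (c3 : ℝ) * (Q : ℝ) ^ 2 ≤ c3 * lam l := by
        calc 2 * (c3 : ℝ) * (Q : ℝ) ^ 2 ≤ Q * (Q : ℝ) ^ 2 := mul_le_mul_of_nonneg_right hc3Q (by positivity)
          _ = (Q : ℝ) ^ 3 := by ring
          _ ≤ X := e1
          _ ≤ c3 * lam l := hl1
      have hc30 : (0 : ℝ) < c3 := by
        rcases Nat.eq_zero_or_pos c3 with h | h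
        · rw [h, Nat.cast_zero, zero_mul] at hl1
          linarith
        · exact_mod_cast h
      nlinarith)
    obtain ⟨I, hIl, hI1, hI2⟩ := exists_I hsc l ((X : ℝ) / (2 * Q)) (c5 * (2 * Q)) (by positivity) (by
      rw [le_div_iff₀ (by positivity)]
      have e1 := hpw 2 (by norm_num)
      calc lam 0 * (2 * Q) ≤ C * (2 * Q) := mul_le_mul_of_nonneg_right h0C (by positivity)
        _ = (2 * C) * Q := by ring
        _ ≤ Q * Q := mul_le_mul_of_nonneg_right hCQ hQ0.le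
        _ ≤ X := by rw [← pow_two]; exact e1) (by nlinarith) (by
      refine hl2.trans (le_of_eq ?_)
      field_simp)
    have hJ2 : 2 * (Q : ℝ) ^ 2 ≤ lam J ∧ (2 : ℝ) ^ J ≤ 4 * (Q : ℝ) ^ 2 := by
      rcases hJ with h | h
      · exact ⟨h.1, by linarith [h.2]⟩
      · refine ⟨h.2, ?_⟩
        rw [h.1, pow_zero]
        nlinarith
    have hlJ := hsc.pos J
    have h1 := arc_count hsc x hx0 hx1 M r1 l J I C (b * c3 + 1) (4 * n) hM1 hJl hIl h0C hc4 S' (fun r hr => habs r (hS' hr) r1 hr1)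
      (fun r hr i w hiw => hbadT r (hS' hr) r1 hr1 i w hiw) (fun r => (c r : ℝ) / q r) (Q / X) (1 / (Q : ℝ) ^ 2) (by
        intro r hr
        refine (hc r hr).trans ?_
        apply div_le_div_of_nonneg_left hQ0.le hX0
        nlinarith [hqr r hr]) (by
        intro r hr r' hr' hne
        have a1 := hqr r hr
        have a2 := hqr r' hr'
        have b1 : (0 : ℝ) < q r := by linarith
        have b2 : (0 : ℝ) < q r' := by linarith
        have e1 : (c r : ℝ) / q r - (c r' : ℝ) / q r' = ((c r * q r' - c r' * q r : ℤ) : ℝ) / (q r * q r') := by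
          push_cast
          field_simp
        have e2 : (c r * q r' - c r' * q r : ℤ) ≠ 0 := by
          intro h0
          apply hne
          rw [h0, Int.cast_zero, zero_div] at e1
          linarith
        have e3 : (1 : ℝ) ≤ |((c r * q r' - c r' * q r : ℤ) : ℝ)| := by
          exact_mod_cast Int.one_le_abs e2
        rw [e1, abs_div, abs_of_pos (mul_pos b1 b2), div_le_div_iff₀ (by positivity) (by positivity)]
        have e4 : (q r : ℝ) * q r' ≤ (Q : ℝ) ^ 2 := by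
          rw [pow_two]
          exact mul_le_mul (hqQ r hr) (hqQ r' hr') b2.le hQ0.le
        have : 0 ≤ (Q : ℝ) ^ 2 := by positivity
        nlinarith) (by
        have e1 : 1 / lam J ≤ 1 / (2 * (Q : ℝ) ^ 2) := one_div_le_one_div_of_le (by positivity) hJ2.1
        have e2 : 2 * ((Q : ℝ) / X) < 1 / (2 * (Q : ℝ) ^ 2) := by
          rw [lt_div_iff₀ (by positivity)]
          have e3 : 2 * ((Q : ℝ) / X) * (2 * (Q : ℝ) ^ 2) = 4 * (Q : ℝ) ^ 3 / X := by ring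
          rw [e3, div_lt_one hX0]
          have e4 := hpw 5 (by norm_num)
          have e5 : (4 : ℝ) * (Q : ℝ) ^ 3 < (Q : ℝ) ^ 5 := by
            have : (Q : ℝ) ^ 5 = (Q : ℝ) ^ 2 * (Q : ℝ) ^ 3 := by ring
            rw [this]
            apply mul_lt_mul_of_pos_right _ (by positivity)
            nlinarith
          linarith
        have e6 : 1 / (2 * (Q : ℝ) ^ 2) + 1 / (2 * (Q : ℝ) ^ 2) = 1 / (Q : ℝ) ^ 2 := by
          field_simp
          norm_num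
        linarith) (by
        have e1 : lam I * (2 * ((Q : ℝ) / X)) ≤ (X : ℝ) / (2 * Q) * (2 * ((Q : ℝ) / X)) :=
          mul_le_mul_of_nonneg_right hI1 (by positivity)
        refine e1.trans (le_of_eq ?_)
        field_simp)
    rw [hPx] at h1
    have h3 : (2 : ℝ) ^ (J + (l - I)) ≤ 16 * c5 * (Q : ℝ) ^ 3 := by
      rw [pow_add]
      calc (2 : ℝ) ^ J * 2 ^ (l - I) ≤ (4 * (Q : ℝ) ^ 2) * (2 * (c5 * (2 * Q))) :=
            mul_le_mul hJ2.2 hI2 (by positivity) (by positivity)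
        _ = _ := by ring
    have h4 : ((129 / 128 : ℝ) ^ (J + (l - I))) ^ 64 ≤ 16 * c5 * (Q : ℝ) ^ 3 := by
      rw [← pow_mul, mul_comm, pow_mul]
      exact (pow_le_pow_left₀ (by norm_num) p64 _).trans h3
    have h5 := hxpow 512
    have h7 : ((S'.card : ℝ)) ^ 64 ≤ (Q : ℝ) ^ 32 := by
      refine num_arc _ (x ^ (2 * (4 * n))) g2 ((129 / 128 : ℝ) ^ (J + (l - I)))
        (((2 * K : ℕ) : ℝ) ^ (s * 512 * D)) Q (16 * c5)
        (Nat.cast_nonneg _) (by positivity) (by positivity) hQr (h1.trans (le_of_eq (by rw [hg2r]))) ?_ h4 (hg2.trans hc6Q) ?_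
      · rw [← pow_mul, show 2 * (4 * n) * 64 = 512 * n by ring]
        exact h5
      · have e1 : (2 * K) ^ (s * 512 * D) ≤ Q := by
          calc (2 * K) ^ (s * 512 * D) ≤ (K ^ 2) ^ (s * 512 * D) := by
                apply Nat.pow_le_pow_left
                rw [pow_two]
                exact Nat.mul_le_mul_right _ hK2
            _ = K ^ (2 * (s * 512 * D)) := by rw [← pow_mul]
            _ ≤ K ^ (2 * A) := by
                apply Nat.pow_le_pow_right (by omega)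
                have : s * 512 * D = 512 * s * D := by ring
                omega
            _ ≤ Q := hQ1
        exact_mod_cast e1
    have h8 : (S'.card ^ 2) ^ 32 ≤ Q ^ 32 := by
      rw [← pow_mul]
      exact_mod_cast h7
    exact (Nat.pow_le_pow_iff_left (by norm_num)).1 h8

end Pool.Agent.HP84.SP
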