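import Pool.Agent.HP84.SP.Maj

set_option autoImplicit false

/-! Random integers whose characteristic function is small outside of a thin set of frequencies: second moments. -/

namespace Pool.Agent.HP84.SP
open Finset
open Pool.Agent.H807R2.Dav
open Pool.Agent.H373R2.T7
open Pool.Agent.W93.DG
open Pool.Agent.W93.RD
open Pool.Agent.W93.TD
open Pool.Agent.W93.LM
open Pool.Agent.W93.AU (gen_var var_num2 dI grid_prob prob_num)

/-- the law of the random integer: the characteristic function is small outside of a thin set of frequencies -/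
structure SLaw (b A V K : ℕ) {ι : Type} (Ω : Finset ι) (p : ι → ℝ) (Y : ι → ℤ) : Prop where
  nonneg : ∀ ω ∈ Ω, 0 ≤ p ω
  le_one : ∑ ω ∈ Ω, p ω ≤ 1
  char : ∃ Bp : ℕ → Prop, (∀ t : ℕ, ¬ Bp (t % b ^ (K + 1)) →
    ‖∑ ω ∈ Ω, ((p ω : ℝ) : ℂ) * ee ((Y ω : ℝ) * ((t : ℝ) / ((b ^ (K + 1) : ℕ) : ℝ)))‖ ≤ 1 / (K : ℝ) ^ V) ∧
    ∀ r0 : ℕ, ∀ S : Finset ℕ, (∀ r ∈ S, r < b ^ (K + 1) ∧ Bp ((r + r0) % b ^ (K + 1))) → Thin b A K S

/-- the second moment is small -/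
theorem gl_varG (b : ℕ) (hb : 2 ≤ b) (U A : ℕ) (hA : 2 * (U + 6) + 16 ≤ A) : ∃ B : ℕ, ∀ Ez : ℕ, ∃ K₀ : ℕ, ∀ K : ℕ, K₀ ≤ K →
    ∀ z : ℕ, Real.log ((b ^ K : ℕ) : ℝ) ^ B ≤ z → (z : ℝ) ≤ Real.log ((b ^ K : ℕ) : ℝ) ^ Ez →
    ∀ (ι : Type) (Ω : Finset ι) (p : ι → ℝ) (Y : ι → ℤ), SLaw b A (U + 6) K Ω p Y →
    ∀ (f : ℕ → ℝ) (Fb : ℝ), 0 ≤ Fb → (∀ n ∈ Icc 1 (b ^ K), |f n| ≤ Fb) →
    ∀ Ag : ℕ → ℂ, (∀ r, ‖Ag r‖ = ‖FF f (b ^ K) (b ^ (K + 1)) r‖ *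
        ‖FF (fun n => ArithmeticFunction.vonMangoldt n - lamz z n) (b ^ K) (b ^ (K + 1)) r‖) →
    ∑ ω ∈ Ω, p ω * ‖EE Ag (b ^ (K + 1)) (Y ω)‖ ^ 2 ≤ (Fb * ((b ^ (K + 1) : ℕ) : ℝ) * ((b ^ K : ℕ) : ℝ)) ^ 2 / (K : ℝ) ^ U := by
  classical
  have hbr : (2 : ℝ) ≤ b := by exact_mod_cast hb
  obtain ⟨B, hB⟩ := bad_sqG b hb (2 * (U + 6)) A hA
  refine ⟨B, fun Ez => ?_⟩
  obtain ⟨k1, h1⟩ := hB Ez
  obtain ⟨N2, h2⟩ := G_sq Ez
  obtain ⟨C, hC⟩ : ∃ C : ℝ, C = 4 * b := ⟨_, rfl⟩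
  have hC0 : 0 ≤ C := by rw [hC]; positivity
  obtain ⟨k4, hk4⟩ := exists_nat_ge (C * (1 + C))
  refine ⟨k1 + N2 + k4 + 4, fun K hk z hz1 hz2 ι Ω p Yv hlaw f Fb hFb0 hFb Af hAf => ?_⟩
  obtain ⟨X, hX⟩ : ∃ X, X = b ^ K := ⟨_, rfl⟩
  obtain ⟨M, hM⟩ : ∃ M, M = b ^ (K + 1) := ⟨_, rfl⟩
  obtain ⟨Bp, hchar, hthin⟩ := hlaw.char
  rw [← hX] at hz1 hz2 hFb hAf ⊢
  rw [← hM] at hAf hchar hthin ⊢
  have hKX : K < X := by rw [hX]; exact Nat.lt_pow_self (by omega)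
  have hXM : X ≤ M := by rw [hX, hM]; exact Nat.pow_le_pow_right (by omega) (by omega)
  have hX0 : (0 : ℝ) < X := by exact_mod_cast (by omega : 0 < X)
  have hM0 : (0 : ℝ) < M := by exact_mod_cast (by omega : 0 < M)
  obtain ⟨hL1, hL2⟩ := logX b K hb
  rw [← hX] at hL1 hL2
  obtain ⟨L, hL⟩ : ∃ L, L = Real.log (X : ℝ) := ⟨_, rfl⟩
  rw [← hL] at hL1 hL2 hz1 hz2
  have hK4 : (4 : ℝ) ≤ K := by exact_mod_cast (by omega : 4 ≤ K)
  have hL0 : 0 < L := by linarith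
  have hz : 1 ≤ z := by
    have : (1 : ℝ) ≤ z := (one_le_pow₀ (by linarith : 1 ≤ L)).trans hz1
    exact_mod_cast this
  obtain ⟨G, hG⟩ : ∃ G : ℕ → ℂ, G = FF (fun n => ArithmeticFunction.vonMangoldt n - lamz z n) X M := ⟨_, rfl⟩
  rw [← hG] at hAf
  have hG2 := h2 X (by omega) M hXM z hz (by rw [← hL]; exact hz2)
  rw [← hG, ← hL] at hG2
  obtain ⟨Fn, hFn⟩ : ∃ Fn : ℕ → ℝ, Fn = fun r => ‖FF f X M r‖ := ⟨_, rfl⟩
  have hAf' : ∀ r, ‖Af r‖ = Fn r * ‖G r‖ := fun r => by rw [hAf, hFn]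
  have hFn0 : ∀ r, 0 ≤ Fn r := fun r => by rw [hFn]; exact norm_nonneg _
  have hF2 : ∑ r ∈ range M, Fn r ^ 2 ≤ M * (Fb ^ 2 * X) := by
    rw [hFn]
    simp only
    rw [FF_pars f X M (by omega) hXM]
    apply mul_le_mul_of_nonneg_left _ (Nat.cast_nonneg _)
    have h1 : ∀ n ∈ Icc 1 X, f n ^ 2 ≤ Fb ^ 2 := by
      intro n hn
      rw [← sq_abs]
      exact pow_le_pow_left₀ (abs_nonneg _) (hFb n hn) 2
    refine (sum_le_sum h1).trans (le_of_eq ?_)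
    rw [sum_const, Nat.card_Icc, nsmul_eq_mul, Nat.add_sub_cancel, mul_comm]
  -- the bound of the characteristic function
  obtain ⟨g, hg⟩ : ∃ g : ℕ → ℝ, g = fun t => if Bp (t % M) then 1 else 1 / (K : ℝ) ^ (U + 6) := ⟨_, rfl⟩
  have hgt : ∀ t, g t = if Bp (t % M) then 1 else 1 / (K : ℝ) ^ (U + 6) := fun t => by rw [hg]
  have hK1 : (1 : ℝ) ≤ (K : ℝ) ^ (U + 6) := one_le_pow₀ (by linarith)
  have hg1 : ∀ t, g t ≤ 1 := by
    intro t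
    rw [hgt]
    split_ifs
    · exact le_rfl
    · rw [div_le_one (by linarith)]; exact hK1
  have hg0 : ∀ t, 0 ≤ g t := by
    intro t
    rw [hgt]
    split_ifs
    · norm_num
    · positivity
  have hvar := gen_var Ω p hlaw.nonneg Yv M (by omega) Af g (by
    intro t
    rw [hgt]
    split_ifs with hc
    · refine (norm_sum_le _ _).trans (le_trans ?_ hlaw.le_one)
      apply sum_le_sum
      intro ω hω
      rw [norm_mul, norm_ee, mul_one, Complex.norm_real, Real.norm_of_nonneg (hlaw.nonneg ω hω)]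
    · exact hchar t hc)
  refine hvar.trans ?_
  clear hvar
  obtain ⟨T, hTd⟩ : ∃ T, T = ∑ r ∈ range M, Fn r * ‖G r‖ := ⟨_, rfl⟩
  have hT0 : 0 ≤ T := by rw [hTd]; exact sum_nonneg fun r _ => mul_nonneg (hFn0 r) (norm_nonneg _)
  obtain ⟨Y, hY⟩ : ∃ Y, Y = Fb * M * X := ⟨_, rfl⟩
  have hY0 : 0 ≤ Y := by rw [hY]; positivity
  have hT' : T ≤ C * (K : ℝ) ^ 2 * Y := by
    have e1 := Real.sum_mul_le_sqrt_mul_sqrt (range M) Fn (fun r => ‖G r‖)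
    have e2 : T ≤ √(M * (Fb ^ 2 * X)) * √(M * (14 * X * L ^ 2)) := by
      rw [hTd]
      refine e1.trans ?_
      exact mul_le_mul (Real.sqrt_le_sqrt hF2) (Real.sqrt_le_sqrt hG2) (Real.sqrt_nonneg _) (Real.sqrt_nonneg _)
    refine e2.trans ((sqrt_num2 M X Fb L K b hM0.le hX0.le hFb0 hL0.le hL2).trans ?_)
    rw [hC, ← hY]
    have : (K : ℝ) ≤ (K : ℝ) ^ 2 := by nlinarith
    gcongr
  -- the rows
  have hrow : ∀ r ∈ range M, ∑ r' ∈ range M, ‖Af r'‖ * g (r' + (M - r)) ≤ Y / (K : ℝ) ^ (U + 6) + 1 / (K : ℝ) ^ (U + 6) * T := by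
    intro r hr
    rw [mem_range] at hr
    rw [← sum_filter_add_sum_filter_not (range M) (fun r' => Bp ((r' + (M - r)) % M))]
    apply add_le_add
    · have hSS : ∀ r' ∈ (range M).filter (fun r' => Bp ((r' + (M - r)) % M)), r' < M ∧ Bp ((r' + (M - r)) % M) := by
        intro r' hr'
        rw [mem_filter, mem_range] at hr'
        exact hr'
      have e1 := h1 K (by omega) z (by rw [← hX, ← hL]; exact hz1) (by rw [← hX, ← hL]; exact hz2)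
        ((range M).filter (fun r' => Bp ((r' + (M - r)) % M))) (by rw [← hM]; exact fun r' hr' => (hSS r' hr').1)
        (hthin (M - r) _ hSS)
      rw [← hX, ← hM, ← hG] at e1
      have e2 : ∑ r' ∈ (range M).filter (fun r' => Bp ((r' + (M - r)) % M)), ‖Af r'‖ * g (r' + (M - r)) ≤
          ∑ r' ∈ (range M).filter (fun r' => Bp ((r' + (M - r)) % M)), Fn r' * ‖G r'‖ := by
        apply sum_le_sum
        intro r' _
        rw [hAf' r']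
        exact mul_le_of_le_one_right (mul_nonneg (hFn0 _) (norm_nonneg _)) (hg1 _)
      have e3 := Real.sum_mul_le_sqrt_mul_sqrt ((range M).filter (fun r' => Bp ((r' + (M - r)) % M)))
        Fn (fun r => ‖G r‖)
      refine e2.trans (e3.trans ?_)
      have e4 : ∑ r' ∈ (range M).filter (fun r' => Bp ((r' + (M - r)) % M)), Fn r' ^ 2 ≤ M * (Fb ^ 2 * X) :=
        (sum_le_sum_of_subset_of_nonneg (filter_subset _ _) fun _ _ _ => sq_nonneg _).trans hF2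
      have e5 := sqrt_num M X Fb _ hM0.le hX0.le hFb0 (U + 6) K (by linarith) e1
      rw [hY]
      exact (mul_le_mul_of_nonneg_right (Real.sqrt_le_sqrt e4) (Real.sqrt_nonneg _)).trans e5
    · have e1 : ∀ r' ∈ (range M).filter (fun r' => ¬ Bp ((r' + (M - r)) % M)),
          ‖Af r'‖ * g (r' + (M - r)) ≤ (Fn r' * ‖G r'‖) * (1 / (K : ℝ) ^ (U + 6)) := by
        intro r' hr'
        rw [mem_filter] at hr'
        rw [hAf' r']
        apply mul_le_mul_of_nonneg_left _ (mul_nonneg (hFn0 _) (norm_nonneg _))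
        rw [hgt, if_neg hr'.2]
      refine (sum_le_sum e1).trans ?_
      rw [← sum_mul, mul_comm]
      apply mul_le_mul_of_nonneg_left _ (by positivity)
      rw [hTd]
      exact sum_le_sum_of_subset_of_nonneg (filter_subset _ _) fun _ _ _ => mul_nonneg (hFn0 _) (norm_nonneg _)
  have hsum2 : ∑ r ∈ range M, ‖Af r‖ * ∑ r' ∈ range M, ‖Af r'‖ * g (r' + (M - r)) ≤
      T * (Y / (K : ℝ) ^ (U + 6) + 1 / (K : ℝ) ^ (U + 6) * T) := by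
    have : ∀ r ∈ range M, ‖Af r‖ * ∑ r' ∈ range M, ‖Af r'‖ * g (r' + (M - r)) ≤
        (Fn r * ‖G r‖) * (Y / (K : ℝ) ^ (U + 6) + 1 / (K : ℝ) ^ (U + 6) * T) := fun r hr => by
      rw [hAf' r]
      exact mul_le_mul_of_nonneg_left (hrow r hr) (mul_nonneg (hFn0 _) (norm_nonneg _))
    refine (sum_le_sum this).trans (le_of_eq ?_)
    rw [← sum_mul, hTd]
  refine hsum2.trans ?_
  rw [← hY]
  exact var_num2 T Y C K U (by linarith) hY0 hT0 hC0 hT' (hk4.trans (by exact_mod_cast (by omega : k4 ≤ K)))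


/-- second moments -/
theorem two_lawG (b : ℕ) (hb : 2 ≤ b) (U A : ℕ) (hA : 2 * (U + 6) + 16 ≤ A) : ∃ B0 : ℕ, ∀ Ez : ℕ, ∃ K₀ : ℕ, ∀ K : ℕ, K₀ ≤ K →
    ∀ z : ℕ, Real.log ((b ^ K : ℕ) : ℝ) ^ B0 ≤ z → (z : ℝ) ≤ Real.log ((b ^ K : ℕ) : ℝ) ^ Ez →
    ∀ (ι : Type) (Ω : Finset ι) (p : ι → ℝ) (Y : ι → ℤ), SLaw b A (U + 6) K Ω p Y →
    ∀ Kc : ℝ, 0 ≤ Kc → ∀ G : ℕ → ℝ, ∀ N : ℕ, N ≤ b ^ K → (∀ n ∈ Icc 1 N, |G n| ≤ Kc) →
    ((∀ ω ∈ Ω, -((b ^ K : ℕ) : ℤ) < Y ω ∧ (N : ℤ) + Y ω ≤ ((b ^ K : ℕ) : ℤ)) →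
      ∑ ω ∈ Ω, p ω * (∑ n ∈ Icc 1 N, G n * dI z ((n : ℤ) + Y ω)) ^ 2 ≤ (Kc * ((b ^ K : ℕ) : ℝ)) ^ 2 / (K : ℝ) ^ U) ∧
    (∀ Ω' ⊆ Ω, (∀ ω ∈ Ω', 0 < Y ω ∧ Y ω ≤ ((b ^ K : ℕ) : ℤ)) →
      ∑ ω ∈ Ω', p ω * (∑ n ∈ Icc 1 N, G n * dI z (Y ω - (n : ℤ))) ^ 2 ≤ (Kc * ((b ^ K : ℕ) : ℝ)) ^ 2 / (K : ℝ) ^ U) := by
  classical
  obtain ⟨B, hB⟩ := gl_varG b hb U A hA
  refine ⟨B, fun Ez => ?_⟩
  obtain ⟨k₀, h0⟩ := hB Ez
  refine ⟨k₀ + 1, fun K hk z hz1 hz2 ι Ω p Y hlaw Kc hK G N hNX hG => ?_⟩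
  obtain ⟨f, hf⟩ : ∃ f : ℕ → ℝ, f = fun n => if n ≤ N then G n else 0 := ⟨_, rfl⟩
  have hf0 : ∀ n, N < n → f n = 0 := by
    intro n hn
    rw [hf]
    simp only
    rw [if_neg (by omega)]
  have hf1 : ∀ n, n ≤ N → f n = G n := by
    intro n hn
    rw [hf]
    simp only
    rw [if_pos hn]
  have hfb : ∀ n ∈ Icc 1 (b ^ K), |f n| ≤ Kc := by
    intro n hn
    rcases Nat.lt_or_ge N n with h | h
    · rw [hf0 n h, abs_zero]; exact hK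
    · rw [hf1 n h]; exact hG n (mem_Icc.2 ⟨(mem_Icc.1 hn).1, h⟩)
  have hbn : 0 < b := by omega
  have hX1 : 1 ≤ b ^ K := Nat.pow_pos hbn
  have hM0 : (0 : ℝ) < ((b ^ (K + 1) : ℕ) : ℝ) := by exact_mod_cast Nat.pow_pos hbn
  have hX0 : (0 : ℝ) < ((b ^ K : ℕ) : ℝ) := by exact_mod_cast hX1
  have hk0 : (0 : ℝ) < K := by exact_mod_cast (by omega : 0 < K)
  have hMX : 2 * b ^ K ≤ b ^ (K + 1) := by
    rw [pow_succ, mul_comm]
    exact Nat.mul_le_mul_left _ hb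
  have hfin : ∀ (Ag : ℕ → ℂ) (T : ι → ℝ), (∀ r, ‖Ag r‖ = ‖FF f (b ^ K) (b ^ (K + 1)) r‖ *
        ‖FF (fun n => ArithmeticFunction.vonMangoldt n - lamz z n) (b ^ K) (b ^ (K + 1)) r‖) → ∀ Ω' ⊆ Ω,
      (∀ ω ∈ Ω', EE Ag (b ^ (K + 1)) (Y ω) = ((((b ^ (K + 1) : ℕ) : ℝ) * T ω : ℝ) : ℂ)) →
      ∑ ω ∈ Ω', p ω * T ω ^ 2 ≤ (Kc * ((b ^ K : ℕ) : ℝ)) ^ 2 / (K : ℝ) ^ U := by
    intro Ag T hAg Ω' hsub hT
    have h1 := h0 K (by omega) z hz1 hz2 ι Ω p Y hlaw f Kc hK hfb Ag hAg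
    have h1' := (sum_le_sum_of_subset_of_nonneg hsub (f := fun ω => p ω * ‖EE Ag (b ^ (K + 1)) (Y ω)‖ ^ 2)
      (fun ω hω _ => mul_nonneg (hlaw.nonneg ω hω) (sq_nonneg _))).trans h1
    have h2 : ∀ ω ∈ Ω', p ω * ‖EE Ag (b ^ (K + 1)) (Y ω)‖ ^ 2 = ((b ^ (K + 1) : ℕ) : ℝ) ^ 2 * (p ω * T ω ^ 2) := by
      intro ω hω
      rw [hT ω hω, Complex.norm_real, Real.norm_eq_abs, sq_abs]
      ring
    rw [sum_congr rfl h2, ← mul_sum] at h1'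
    have h6 : ((b ^ (K + 1) : ℕ) : ℝ) ^ 2 * ∑ ω ∈ Ω', p ω * T ω ^ 2 ≤
        ((b ^ (K + 1) : ℕ) : ℝ) ^ 2 * ((Kc * ((b ^ K : ℕ) : ℝ)) ^ 2 / (K : ℝ) ^ U) := by
      refine h1'.trans (le_of_eq ?_)
      ring
    exact le_of_mul_le_mul_left h6 (by positivity)
  have hg : ∀ m : ℤ, (if 1 ≤ m then (fun n => ArithmeticFunction.vonMangoldt n - lamz z n) m.toNat else 0) = dI z m := by
    intro m
    unfold dI lamI lamzI
    split_ifs <;> simp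
  constructor
  · intro hY
    refine hfin (fun r => (starRingEnd ℂ) (FF f (b ^ K) (b ^ (K + 1)) r) *
        FF (fun n => ArithmeticFunction.vonMangoldt n - lamz z n) (b ^ K) (b ^ (K + 1)) r)
        (fun ω => ∑ n ∈ Icc 1 N, G n * dI z ((n : ℤ) + Y ω)) (by
      intro r
      rw [norm_mul, RCLike.norm_conj]) Ω (Finset.Subset.refl _) ?_
    intro ω hω
    rw [EE_corr f (fun n => ArithmeticFunction.vonMangoldt n - lamz z n) (b ^ K) (b ^ (K + 1)) N hX1 hMX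
      hNX hf0 (Y ω) (hY ω hω).1 (hY ω hω).2]
    congr 2
    apply sum_congr rfl
    intro n hn
    rw [mem_Icc] at hn
    rw [hf1 n hn.2, hg]
  · intro Ω' hsub hY
    refine hfin (fun r => FF f (b ^ K) (b ^ (K + 1)) r *
        FF (fun n => ArithmeticFunction.vonMangoldt n - lamz z n) (b ^ K) (b ^ (K + 1)) r)
        (fun ω => ∑ n ∈ Icc 1 N, G n * dI z (Y ω - (n : ℤ))) (by
      intro r
      rw [norm_mul]) Ω' hsub ?_
    intro ω hω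
    rw [EE_conv f (fun n => ArithmeticFunction.vonMangoldt n - lamz z n) (b ^ K) (b ^ (K + 1)) hX1 hMX (Y ω) (hY ω hω).1 (hY ω hω).2]
    congr 2
    rw [← sum_subset (Icc_subset_Icc_right hNX) (by
      intro n _ hn
      have : N < n ∨ n < 1 := by
        rw [mem_Icc] at hn
        omega
      rcases this with h | h
      · rw [hf0 n h, zero_mul]
      · exact absurd ‹n ∈ Icc 1 (b ^ K)› (by rw [mem_Icc]; omega))]
    apply sum_congr rfl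
    intro n hn
    rw [mem_Icc] at hn
    rw [hf1 n hn.2, hg]

/-- for almost all the shifts all the sums are small -/
theorem law_probG (b : ℕ) (hb : 2 ≤ b) (T U A : ℕ) (hA : 2 * (4 * U + 3 * T + 7 + 6) + 16 ≤ A) : ∃ B0 : ℕ, ∀ Ez : ℕ, ∃ K₀ : ℕ, ∀ K : ℕ, K₀ ≤ K →
    ∀ z : ℕ, Real.log ((b ^ K : ℕ) : ℝ) ^ B0 ≤ z → (z : ℝ) ≤ Real.log ((b ^ K : ℕ) : ℝ) ^ Ez →
    ∀ (ι : Type) (Ω : Finset ι) (p : ι → ℝ) (Y : ι → ℤ), SLaw b A (4 * U + 3 * T + 7 + 6) K Ω p Y →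
    ∀ Q : ℕ, (∀ ω ∈ Ω, -((b ^ K : ℕ) : ℤ) < Y ω ∧ (Q : ℤ) + Y ω ≤ ((b ^ K : ℕ) : ℤ)) → Q ≤ b ^ K →
    ∀ G : ℕ → ℝ, (∀ n, |G n| ≤ (K : ℝ) ^ T) →
    ∀ E : ι → Prop, [DecidablePred E] →
    (∀ ω ∈ Ω, E ω →
      (∃ N ≤ Q, ((b ^ K : ℕ) : ℝ) / (K : ℝ) ^ U < |∑ n ∈ Icc 1 N, G n * dI z ((n : ℤ) + Y ω)|) ∨
      (0 < Y ω ∧ ∃ N ≤ b ^ K, ((b ^ K : ℕ) : ℝ) / (K : ℝ) ^ U < |∑ n ∈ Icc 1 N, G n * dI z (Y ω - (n : ℤ))|)) →
    ∑ ω ∈ Ω, (if E ω then p ω else 0) ≤ 1 / (K : ℝ) ^ U := by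
  classical
  obtain ⟨B, hB⟩ := two_lawG b hb (4 * U + 3 * T + 7) A hA
  refine ⟨B, fun Ez => ?_⟩
  obtain ⟨k₀, h0⟩ := hB Ez
  obtain ⟨k3, h3⟩ := Vz_inv_small Ez
  have hbig : ∃ k2 : ℕ, ∀ k : ℕ, k2 ≤ k → 4 * k ^ (U + (T + 3)) ≤ b ^ k := by
    have hlim := isLittleO_pow_const_const_pow_of_one_lt (R := ℝ) (U + (T + 3)) (r := (b : ℝ)) (by exact_mod_cast (by omega : 1 < b))
    have h2 := hlim.def (c := 1 / 4) (by norm_num)
    rw [Filter.eventually_atTop] at h2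
    obtain ⟨k2, hk2⟩ := h2
    refine ⟨k2, fun k hk => ?_⟩
    have h3 := hk2 k hk
    rw [Real.norm_of_nonneg (by positivity), Real.norm_of_nonneg (by positivity)] at h3
    have h4 : (4 : ℝ) * (k : ℝ) ^ (U + (T + 3)) ≤ (b : ℝ) ^ k := by linarith
    exact_mod_cast h4
  obtain ⟨k2, h2⟩ := hbig
  refine ⟨k₀ + k2 + k3 + b + 40, fun K hk z hz1 hz2 ι Ω p Y hlaw Q hY hQX G hG E _ hE => ?_⟩
  have hk1 : 1 ≤ K := by omega
  have hK40 : (40 : ℝ) ≤ K := by exact_mod_cast (by omega : 40 ≤ K)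
  have hkr : (1 : ℝ) ≤ K := by exact_mod_cast hk1
  have hk0 : (0 : ℝ) < K := by linarith
  have hbn : 0 < b := by omega
  have hKb : K < b ^ K := Nat.lt_pow_self (by omega)
  obtain ⟨X, hX⟩ : ∃ X : ℕ, X = b ^ K := ⟨_, rfl⟩
  have hb0 : (0 : ℝ) < X := by rw [hX]; exact_mod_cast Nat.pow_pos hbn
  obtain ⟨g1, g2, g3⟩ := grid_size b K (U + (T + 3)) 1 (h2 K (by omega)) hk1
  rw [one_mul] at g3
  obtain ⟨H, hH⟩ : ∃ H, H = b ^ K / (2 * K ^ (U + (T + 3))) := ⟨_, rfl⟩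
  rw [← hH] at g1 g2 g3
  have hpcast : (b : ℝ) ^ K = (X : ℝ) := by rw [hX]; push_cast; rfl
  rw [hpcast] at g2
  rw [← hX] at g3 hY hQX hz1 hz2 hE
  -- the size of the function
  have hlogX : Real.log (X : ℝ) ≤ (K : ℝ) ^ 2 := by
    have e1 : Real.log (X : ℝ) = K * Real.log b := by rw [hX]; push_cast; rw [Real.log_pow]
    have e2 : Real.log (b : ℝ) ≤ K := by
      have q1 : Real.log (b : ℝ) ≤ b := (Real.log_le_sub_one_of_pos (by exact_mod_cast hbn)).trans (by linarith)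
      exact q1.trans (by exact_mod_cast (by omega : b ≤ K))
    rw [e1, pow_two]
    exact mul_le_mul_of_nonneg_left e2 hk0.le
  have hlog1 : 1 ≤ Real.log (X : ℝ) := by
    rw [Real.le_log_iff_exp_le hb0]
    have : (3 : ℝ) ≤ X := by exact_mod_cast (by rw [hX]; omega : 3 ≤ X)
    linarith [Real.exp_one_lt_d9]
  have hz : 1 ≤ z := by
    have : (1 : ℝ) ≤ z := (one_le_pow₀ hlog1).trans hz1
    exact_mod_cast this
  have hV := h3 X (by rw [hX]; omega) z hz hz2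
  have hd : ∀ m : ℤ, m ≤ (X : ℤ) → |dI z m| ≤ (K : ℝ) ^ 2 := by
    intro m hm
    have q1 := lamI_nonneg m
    have q2 := lamzI_nonneg z m
    have q3 := lamI_le m (X : ℝ) (by exact_mod_cast (by rw [hX]; omega : 1 ≤ X)) (by exact_mod_cast hm)
    have q4 := (lamzI_le z m).trans hV
    unfold dI
    rw [abs_le]
    constructor <;> linarith
  have hE0 : ∀ n : ℕ, ∀ m : ℤ, m ≤ (X : ℤ) → |G n * dI z m| ≤ (K : ℝ) ^ (T + 2) := by
    intro n m hm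
    rw [abs_mul, pow_add]
    exact mul_le_mul (hG n) (hd m hm) (abs_nonneg _) (by positivity)
  have hE0H : (K : ℝ) ^ (T + 2) * H ≤ X / (2 * (K : ℝ) ^ U) := by
    have q1 : (K : ℝ) ^ (T + 2) * H ≤ (K : ℝ) ^ (T + 3) * H :=
      mul_le_mul_of_nonneg_right (pow_le_pow_right₀ hkr (by omega)) (Nat.cast_nonneg _)
    rw [le_div_iff₀ (by positivity)]
    have q2 : (K : ℝ) ^ (T + 3) * H * (2 * (K : ℝ) ^ U) = 2 * ((H : ℝ) * (K : ℝ) ^ (U + (T + 3))) := by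
      rw [pow_add (K : ℝ) U (T + 3)]; ring
    have q3 : (K : ℝ) ^ (T + 2) * H * (2 * (K : ℝ) ^ U) ≤ (K : ℝ) ^ (T + 3) * H * (2 * (K : ℝ) ^ U) :=
      mul_le_mul_of_nonneg_right q1 (by positivity)
    linarith
  have hτ : (0 : ℝ) < X / (2 * (K : ℝ) ^ U) := by positivity
  have hsplit : (X : ℝ) / (K : ℝ) ^ U = X / (2 * (K : ℝ) ^ U) + X / (2 * (K : ℝ) ^ U) := by
    have := pow_pos hk0 U
    field_simp
    ring
  have hcard : ∀ Q' : ℕ, Q' ≤ X → ((Q' / H + 1 : ℕ) : ℝ) ≤ 4 * 1 * (K : ℝ) ^ (U + (T + 3)) + 1 := by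
    intro Q' hQ'
    push_cast
    have q1 : Q' / H ≤ X / H := Nat.div_le_div_right hQ'
    have q2 : ((Q' / H : ℕ) : ℝ) ≤ ((X / H : ℕ) : ℝ) := by exact_mod_cast q1
    have q3 : ((X / H : ℕ) : ℝ) ≤ 4 * 1 * (K : ℝ) ^ (U + (T + 3)) := by
      refine g3.trans (le_of_eq ?_)
      push_cast
      ring
    linarith
  obtain ⟨E1, hE1⟩ : ∃ E1 : ι → Prop, E1 = fun ω => ∃ N ≤ Q, (X : ℝ) / (K : ℝ) ^ U < |∑ n ∈ Icc 1 N, G n * dI z ((n : ℤ) + Y ω)| := ⟨_, rfl⟩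
  obtain ⟨E2, hE2⟩ : ∃ E2 : ι → Prop, E2 = fun ω => 0 < Y ω ∧ ∃ N ≤ X, (X : ℝ) / (K : ℝ) ^ U < |∑ n ∈ Icc 1 N, G n * dI z (Y ω - (n : ℤ))| := ⟨_, rfl⟩
  have hK2 : ∀ n, n ≤ X → n ≤ b ^ K := fun n hn => by rw [← hX]; exact hn
  have p1 : ∑ ω ∈ Ω, (if E1 ω then p ω else 0) ≤ 1 / 2 * (1 / (K : ℝ) ^ U) := by
    have q := grid_prob Ω p hlaw.nonneg (fun n ω => G n * dI z ((n : ℤ) + Y ω)) Q H g1 ((K : ℝ) ^ (T + 2))
      (((K : ℝ) ^ T * X) ^ 2 / (K : ℝ) ^ (4 * U + 3 * T + 7)) (X / (2 * (K : ℝ) ^ U)) hτ (by positivity) (by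
        intro n hn ω hω
        rw [mem_Icc] at hn
        apply hE0
        have := (hY ω hω).2
        have h9 : (n : ℤ) ≤ Q := by exact_mod_cast hn.2
        linarith) (by
        intro N hN
        have q1 := (h0 K (by omega) z (by rw [← hX]; exact hz1) (by rw [← hX]; exact hz2) ι Ω p Y hlaw ((K : ℝ) ^ T) (by positivity) G N
          (hK2 N (hN.trans hQX)) (fun n _ => hG n)).1 (by
            intro ω hω
            rw [← hX]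
            refine ⟨(hY ω hω).1, ?_⟩
            have := (hY ω hω).2
            have h9 : (N : ℤ) ≤ Q := by exact_mod_cast hN
            linarith)
        rw [← hX] at q1
        exact q1) E1 (by
        intro ω hω h
        rw [hE1] at h
        obtain ⟨N, hN, h⟩ := h
        exact ⟨N, hN, by linarith⟩)
    exact q.trans (prob_num K X _ U T hK40 hb0 (hcard Q hQX))
  have p2 : ∑ ω ∈ Ω.filter (fun ω => 0 < Y ω), (if E2 ω then p ω else 0) ≤ 1 / 2 * (1 / (K : ℝ) ^ U) := by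
    have q := grid_prob (Ω.filter (fun ω => 0 < Y ω)) p (fun ω hω => hlaw.nonneg ω (mem_filter.1 hω).1)
      (fun n ω => G n * dI z (Y ω - (n : ℤ))) X H g1 ((K : ℝ) ^ (T + 2))
      (((K : ℝ) ^ T * X) ^ 2 / (K : ℝ) ^ (4 * U + 3 * T + 7)) (X / (2 * (K : ℝ) ^ U)) hτ (by positivity) (by
        intro n hn ω hω
        apply hE0
        have := (hY ω (mem_filter.1 hω).1).2
        have h9 : (0 : ℤ) ≤ n := Int.natCast_nonneg _
        have h10 : (0 : ℤ) ≤ Q := Int.natCast_nonneg _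
        linarith) (by
        intro N hN
        have q1 := (h0 K (by omega) z (by rw [← hX]; exact hz1) (by rw [← hX]; exact hz2) ι Ω p Y hlaw ((K : ℝ) ^ T) (by positivity) G N
          (hK2 N hN) (fun n _ => hG n)).2 (Ω.filter (fun ω => 0 < Y ω)) (filter_subset _ _) (by
            intro ω hω
            rw [mem_filter] at hω
            rw [← hX]
            refine ⟨hω.2, ?_⟩
            have := (hY ω hω.1).2
            have h10 : (0 : ℤ) ≤ Q := Int.natCast_nonneg _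
            linarith)
        rw [← hX] at q1
        exact q1) E2 (by
        intro ω hω h
        rw [hE2] at h
        obtain ⟨_, N, hN, h⟩ := h
        exact ⟨N, hN, by linarith⟩)
    exact q.trans (prob_num K X _ U T hK40 hb0 (hcard X le_rfl))
  rw [sum_filter] at p2
  have hpt : ∀ ω ∈ Ω, (if E ω then p ω else 0) ≤ (if E1 ω then p ω else 0) + (if 0 < Y ω then (if E2 ω then p ω else 0) else 0) := by
    intro ω hω
    have hp := hlaw.nonneg ω hω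
    by_cases h : E ω
    · rw [if_pos h]
      rcases hE ω hω h with h1 | h1
      · have : E1 ω := by rw [hE1]; exact h1
        rw [if_pos this]
        have : 0 ≤ (if 0 < Y ω then (if E2 ω then p ω else 0) else 0) := by split_ifs <;> simp [hp]
        linarith
      · have h2 : E2 ω := by rw [hE2]; exact h1
        rw [if_pos h1.1, if_pos h2]
        have : 0 ≤ (if E1 ω then p ω else 0) := by split_ifs <;> simp [hp]
        linarith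
    · rw [if_neg h]
      split_ifs <;> linarith
  refine (sum_le_sum hpt).trans ?_
  rw [sum_add_distrib]
  linarith



end Pool.Agent.HP84.SP
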