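import Pool.Agent.W93.LV6
import Pool.Agent.HP84.SP.Var

set_option autoImplicit false

/-! Level of distribution for almost all residues, for an arbitrary law whose characteristic function is small outside of
a thin set of frequencies. -/

namespace Pool.Agent.HP84.SP
open Finset
open Pool.Agent.H373R2.T7
open Pool.Agent.W93.TD
open Pool.Agent.W93.LV
open Pool.Agent.W93.AU (dI)

theorem lv_lawG (b : ℕ) (hb : 2 ≤ b) (ε : ℝ) (hε : 0 < ε) (T U : ℕ) :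
    ∃ V A0 : ℕ, ∀ A : ℕ, A0 ≤ A → ∃ K₀ : ℕ, ∀ K : ℕ, K₀ ≤ K → ∀ (ι : Type) (Ω : Finset ι) (p : ι → ℝ) (Y : ι → ℤ),
    SLaw b A V K Ω p Y → (∀ ω ∈ Ω, -((b ^ K : ℕ) : ℤ) < Y ω ∧ Y ω ≤ ((b ^ (K - 1) : ℕ) : ℤ)) →
    ∀ lam : ℕ → ℝ, (∀ q, |lam q| ≤ (K : ℝ) ^ T) → ∀ Q : ℕ, (Q : ℝ) ≤ ((b ^ K : ℕ) : ℝ) ^ (1 - ε) →
    ∀ E : ι → Prop, [DecidablePred E] →
    (∀ ω ∈ Ω, E ω → 0 < Y ω ∧ ∃ y ≤ b ^ (K - 1), ((b ^ K : ℕ) : ℝ) / (K : ℝ) ^ U <
      |∑ q ∈ (Icc 1 Q).filter (fun q => (Y ω).toNat.Coprime q),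
        lam q * (Fu (fun n => ArithmeticFunction.vonMangoldt n) y q (Y ω).toNat - (y : ℝ) / Nat.totient q)|) →
    ∑ ω ∈ Ω, (if E ω then p ω else 0) ≤ 1 / (K : ℝ) ^ U := by
  obtain ⟨T1, hT1⟩ : ∃ T1, T1 = T + 1 := ⟨_, rfl⟩
  obtain ⟨U1, hU1⟩ : ∃ U1, U1 = U + 1 := ⟨_, rfl⟩
  obtain ⟨T2, hT2⟩ : ∃ T2, T2 = 2 * (T1 + (T1 + U1 + 5)) := ⟨_, rfl⟩
  obtain ⟨U2, hU2⟩ : ∃ U2, U2 = 2 * (U1 + 1) := ⟨_, rfl⟩
  refine ⟨4 * U2 + 3 * T2 + 7 + 6, 2 * (4 * U2 + 3 * T2 + 7 + 6) + 16, fun A hA => ?_⟩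
  obtain ⟨B0, h0⟩ := law_probG b hb T2 U2 A hA
  obtain ⟨E1, hE1⟩ : ∃ E1, E1 = B0 + T1 + U1 + 5 := ⟨_, rfl⟩
  obtain ⟨n0, h0⟩ := h0 (E1 + 1)
  obtain ⟨Mm, hMm⟩ := exists_nat_ge (2 / ε + 1)
  obtain ⟨n1, h1⟩ := choice 1 (E1 + 1) (T1 + U1 + 3) Mm
  obtain ⟨n2, h2⟩ := Vz_inv_small (E1 + 1)
  obtain ⟨n3, h3⟩ := pow_small (ε / 2) 54 (by positivity) (T1 + U1 + 4)
  obtain ⟨R, hR⟩ := exists_nat_ge (2 * (510 + (2 : ℝ) ^ T + (2 : ℝ) ^ U))
  refine ⟨n0 + n1 + n2 + n3 + R + b + 3, fun K hK ι Ω p Y hlaw hY lam hlam Q hQ E _ hE => ?_⟩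
  have hK1 : 1 ≤ K := by omega
  have hKr : (1 : ℝ) ≤ K := by exact_mod_cast hK1
  have hK0 : (0 : ℝ) < K := by linarith
  have hKb : K < b ^ K := Nat.lt_pow_self (by omega)
  obtain ⟨N, hN⟩ : ∃ N : ℕ, N = b ^ K := ⟨_, rfl⟩
  obtain ⟨N', hN'⟩ : ∃ N' : ℕ, N' = b ^ (K - 1) := ⟨_, rfl⟩
  rw [← hN] at hKb hY hQ hE
  rw [← hN'] at hY hE
  have hNN' : 2 * N' ≤ N := by
    rw [hN, hN']
    obtain ⟨K', rfl⟩ : ∃ K', K = K' + 1 := ⟨K - 1, by omega⟩
    rw [Nat.add_sub_cancel, pow_succ']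
    exact Nat.mul_le_mul_right _ hb
  have hN1 : 1 ≤ N := by omega
  have hNr : (1 : ℝ) ≤ N := by exact_mod_cast hN1
  have hN0 : (0 : ℝ) < N := by linarith
  obtain ⟨L, hL⟩ : ∃ L, L = Real.log (N : ℝ) := ⟨_, rfl⟩
  have hb2 : (2 : ℝ) ≤ b := by exact_mod_cast hb
  have hLe : L = K * Real.log b := by
    rw [hL, hN]; push_cast; rw [Real.log_pow]
  have hlb : 1 / 2 ≤ Real.log b := by
    have q1 : Real.log 2 ≤ Real.log b := Real.log_le_log (by norm_num) hb2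
    linarith [Real.log_two_gt_d9]
  have hKL : (K : ℝ) ≤ 2 * L := by
    rw [hLe]; nlinarith
  have hLK : L ≤ (K : ℝ) ^ 2 := by
    have e2 : Real.log (b : ℝ) ≤ K := by
      have q1 : Real.log (b : ℝ) ≤ b := (Real.log_le_sub_one_of_pos (by linarith)).trans (by linarith)
      exact q1.trans (by exact_mod_cast (by omega : b ≤ K))
    rw [hLe, pow_two]
    exact mul_le_mul_of_nonneg_left e2 hK0.le
  have hRK : (R : ℝ) ≤ K := by exact_mod_cast (by omega : R ≤ K)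
  have p1 : (0 : ℝ) < (2 : ℝ) ^ T := by positivity
  have p2 : (0 : ℝ) < (2 : ℝ) ^ U := by positivity
  have hbig : 4 + 504 * (1 : ℝ) ≤ L := by linarith
  have hL1 : 1 ≤ L := by linarith
  have hL0 : 0 < L := by linarith
  have hKT : (K : ℝ) ^ T ≤ L ^ T1 := by
    calc (K : ℝ) ^ T ≤ (2 * L) ^ T := pow_le_pow_left₀ hK0.le hKL T
      _ = 2 ^ T * L ^ T := mul_pow _ _ _
      _ ≤ L * L ^ T := mul_le_mul_of_nonneg_right (by linarith) (by positivity)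
      _ = L ^ T1 := by rw [hT1, pow_succ]; ring
  have hKU : (K : ℝ) ^ U ≤ L ^ U1 := by
    calc (K : ℝ) ^ U ≤ (2 * L) ^ U := pow_le_pow_left₀ hK0.le hKL U
      _ = 2 ^ U * L ^ U := mul_pow _ _ _
      _ ≤ L * L ^ U := mul_le_mul_of_nonneg_right (by linarith) (by positivity)
      _ = L ^ U1 := by rw [hU1, pow_succ]; ring
  -- the level
  obtain ⟨z, hz⟩ : ∃ z, z = ⌈L ^ E1⌉₊ := ⟨_, rfl⟩
  have hz1 : L ^ E1 ≤ z := by rw [hz]; exact Nat.le_ceil _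
  have hz2 : (z : ℝ) ≤ L ^ (E1 + 1) := by
    have q1 : (z : ℝ) < L ^ E1 + 1 := by rw [hz]; exact Nat.ceil_lt_add_one (by positivity)
    have q2 : 1 ≤ L ^ E1 := one_le_pow₀ (by linarith)
    rw [pow_succ]
    nlinarith
  have hzge : 1 ≤ z := by
    have : (1 : ℝ) ≤ z := (one_le_pow₀ hL1).trans hz1
    exact_mod_cast this
  have hV := h2 N (by omega) z hzge (by rw [← hL]; exact hz2)
  rw [← hL] at hV
  -- the sieve
  obtain ⟨r, hr1, hr2, _⟩ := h1 N (by omega) z (by rw [← hL]; exact hz2)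
  rw [← hL] at hr1
  obtain ⟨W, hW⟩ : ∃ W : ℝ, W = ((z : ℝ) + 1) ^ r := ⟨_, rfl⟩
  rw [← hW] at hr2
  have hW1 : 1 ≤ W := by rw [hW]; exact one_le_pow₀ (by linarith [(Nat.cast_nonneg z : (0 : ℝ) ≤ z)])
  have hQN : (Q : ℝ) * W ≤ (N : ℝ) ^ (1 - ε / 2) := by
    have hMpos : 0 < 2 / ε := by positivity
    have hM0 : (0 : ℝ) < Mm := by linarith
    have hM0' : Mm ≠ 0 := by
      rintro rfl
      simp at hM0
    have q1 : W ≤ (N : ℝ) ^ (ε / 2) := by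
      calc W = (W ^ Mm) ^ ((1 : ℝ) / Mm) := by
            rw [one_div, Real.pow_rpow_inv_natCast (by linarith) hM0']
        _ ≤ (N : ℝ) ^ ((1 : ℝ) / Mm) := Real.rpow_le_rpow (by positivity) hr2 (by positivity)
        _ ≤ (N : ℝ) ^ (ε / 2) := by
            apply Real.rpow_le_rpow_of_exponent_le hNr
            rw [div_le_div_iff₀ hM0 (by norm_num)]
            have : 2 / ε ≤ Mm := by linarith
            rw [div_le_iff₀ hε] at this
            linarith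
    calc (Q : ℝ) * W ≤ (N : ℝ) ^ (1 - ε) * (N : ℝ) ^ (ε / 2) := mul_le_mul hQ q1 (by linarith) (by positivity)
      _ = (N : ℝ) ^ (1 - ε / 2) := by
          rw [← Real.rpow_add hN0]
          congr 1
          ring
  have hQX : Q ≤ N := by
    have q1 : (Q : ℝ) ≤ N := by
      calc (Q : ℝ) ≤ (N : ℝ) ^ (1 - ε) := hQ
        _ ≤ (N : ℝ) ^ (1 : ℝ) := Real.rpow_le_rpow_of_exponent_le hNr (by linarith)
        _ = N := Real.rpow_one _
    exact_mod_cast q1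
  have hQW : 54 * L ^ (T1 + U1 + 4) * ((Q : ℝ) * W) ≤ N := by
    have q1 := h3 N (by omega)
    rw [← hL] at q1
    calc 54 * L ^ (T1 + U1 + 4) * ((Q : ℝ) * W) ≤ (N : ℝ) ^ (ε / 2) * (N : ℝ) ^ (1 - ε / 2) :=
          mul_le_mul q1 hQN (by positivity) (by positivity)
      _ = N := by
          rw [← Real.rpow_add hN0, show ε / 2 + (1 - ε / 2) = 1 by ring, Real.rpow_one]
  -- the exceptional set
  have hlam' : ∀ q, |lam q| ≤ L ^ T1 := fun q => (hlam q).trans hKT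
  have hτ : (0 : ℝ) < L ^ (T1 + U1 + 5) := by positivity
  have hNU : (N : ℝ) / (K : ℝ) ^ U2 ≤ N / L ^ (U1 + 1) := by
    apply div_le_div_of_nonneg_left hN0.le (by positivity)
    rw [hU2, pow_mul]
    exact pow_le_pow_left₀ hL0.le hLK _
  have key := h0 K (by omega) z (by rw [← hN, ← hL]; exact (pow_le_pow_right₀ hL1 (by omega)).trans hz1)
    (by rw [← hN, ← hL]; exact hz2) ι Ω p Y hlaw N' (by
      intro ω hω
      rw [← hN]
      have := hY ω hω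
      have h9 : ((2 * N' : ℕ) : ℤ) ≤ (N : ℤ) := by exact_mod_cast hNN'
      push_cast at h9
      exact ⟨this.1, by linarith⟩) (by rw [← hN]; omega)
    (DT lam Q (L ^ (T1 + U1 + 5))) (fun n => by
      refine (DT_le lam Q _ (L ^ T1) hτ.le hlam' n).trans ?_
      rw [← pow_add, hT2, pow_mul]
      exact pow_le_pow_left₀ hL0.le hLK _) E (by
      intro ω hω hEω
      rw [← hN]
      obtain ⟨ha, y, hy, hlt⟩ := hE ω hω hEω
      obtain ⟨a, haa⟩ : ∃ a : ℕ, (a : ℤ) = Y ω := ⟨(Y ω).toNat, Int.toNat_of_nonneg ha.le⟩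
      have haY := (hY ω hω).2
      rw [← haa] at ha haY ⊢
      rw [← haa, Int.toNat_natCast] at hlt
      have ha1 : 1 ≤ a := by omega
      have haX : a ≤ N := by omega
      have hyX : y ≤ N := by omega
      by_contra hcon
      rw [not_or] at hcon
      obtain ⟨c1, c2⟩ := hcon
      push Not at c1 c2
      have s1 := (c1 (y - a) (by omega)).trans hNU
      have s2 := (c2 ha (a - 1) (by omega)).trans hNU
      have s3 := (c2 ha (a - 1 - y) (by omega)).trans hNU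
      have d1 := det1 lam Q y a z r N (L ^ T1) L L ha1 hzge haX hyX hQX hlam' hV hL.symm le_rfl hL1
      have d2 := three lam Q a y z N (L ^ (T1 + U1 + 5)) (L ^ T1) L hτ hlam' ha1 haX hyX hL.symm hV hL1
      rw [← hW] at d1
      have d3 : 1 + Real.log (N : ℝ) ≤ 2 * L := by rw [← hL]; linarith
      have d4 : L * (L ^ T1 / L ^ (T1 + U1 + 5) * (N * (1 + Real.log N) ^ 3)) ≤ L * (L ^ T1 / L ^ (T1 + U1 + 5) * (N * (2 * L) ^ 3)) := by
        have g0 := log1_nonneg N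
        gcongr
      have d5 := fin_num L L N N Q W (Real.exp (3 * (1 + Real.log z) - r)) z _ _ _ 1 T1 U1 E1 hL1 hL1 (by linarith) hN0
        (by ring) (by norm_num) (Nat.cast_nonneg Q) hW1 (Real.exp_pos _).le (by
          refine le_trans (le_of_eq ?_) hr1
          push_cast
          ring_nf) (by exact_mod_cast hzge) hz1 (by omega) hQW hbig s1 s2 s3
      have d6 : (N : ℝ) / L ^ U1 ≤ N / (K : ℝ) ^ U := div_le_div_of_nonneg_left hN0.le (by positivity) hKU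
      linarith)
  refine key.trans ?_
  apply one_div_le_one_div_of_le (by positivity)
  exact pow_le_pow_right₀ hKr (by omega)

end Pool.Agent.HP84.SP
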