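import Pool.Agent.HP84.SP.Count3
import Pool.Agent.HP84.SP.Level

set_option autoImplicit false

/-! Sums of independent random integers whose values have differences at all scales. -/

namespace Pool.Agent.HP84.SP
open Finset
open Pool.Agent.H807R2.Dav
open Pool.Agent.W93.RD (cos_dist)

/-- one summand -/
lemma one_le (A : Finset ℤ) (w : ℤ → ℝ) (hw : ∀ a ∈ A, 0 ≤ w a) (hsum : ∑ a ∈ A, w a = 1) (θ : ℝ) :
    ‖∑ a ∈ A, ((w a : ℝ) : ℂ) * ee ((a : ℝ) * θ)‖ ≤ 1 := by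
  refine (norm_sum_le _ _).trans (le_of_eq ?_)
  rw [← hsum]
  apply sum_congr rfl
  intro a ha
  rw [norm_mul, norm_ee, mul_one, Complex.norm_real, Real.norm_of_nonneg (hw a ha)]

/-- one summand with two values whose difference has a multiple far from the integers -/
lemma one_far (A : Finset ℤ) (w : ℤ → ℝ) (hw : ∀ a ∈ A, 0 ≤ w a) (hsum : ∑ a ∈ A, w a = 1) (θ δ η : ℝ) (hδ : 0 ≤ δ) (hη : 0 ≤ η)
    (u v : ℤ) (hu : u ∈ A) (hv : v ∈ A) (huv : u ≠ v) (hwu : η ≤ w u) (hwv : η ≤ w v) (hfar : Far δ (((v - u : ℤ) : ℝ) * θ)) :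
    ‖∑ a ∈ A, ((w a : ℝ) : ℂ) * ee ((a : ℝ) * θ)‖ ≤ 1 - 4 * η * δ ^ 2 := by
  have hv' : v ∈ A.erase u := mem_erase.2 ⟨huv.symm, hv⟩
  have hsplit : ∀ f : ℤ → ℂ, ∑ a ∈ A, f a = f u + (f v + ∑ a ∈ (A.erase u).erase v, f a) := by
    intro f
    rw [add_sum_erase _ f hv', add_sum_erase _ f hu]
  have hsplitr : ∑ a ∈ A, w a = w u + (w v + ∑ a ∈ (A.erase u).erase v, w a) := by
    rw [add_sum_erase _ w hv', add_sum_erase _ w hu]
  have hrest : ‖∑ a ∈ (A.erase u).erase v, ((w a : ℝ) : ℂ) * ee ((a : ℝ) * θ)‖ ≤ 1 - w u - w v := by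
    refine (norm_sum_le _ _).trans ?_
    have : ∀ a ∈ (A.erase u).erase v, ‖((w a : ℝ) : ℂ) * ee ((a : ℝ) * θ)‖ = w a := by
      intro a ha
      rw [norm_mul, norm_ee, mul_one, Complex.norm_real, Real.norm_of_nonneg (hw a (mem_of_mem_erase (mem_of_mem_erase ha)))]
    rw [sum_congr rfl this]
    linarith
  have hpair : ‖ee ((u : ℝ) * θ) + ee ((v : ℝ) * θ)‖ ≤ 2 - 4 * δ ^ 2 := by
    have e1 : ee ((u : ℝ) * θ) + ee ((v : ℝ) * θ) = ee ((u : ℝ) * θ) * (1 + ee (((v - u : ℤ) : ℝ) * θ)) := by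
      rw [mul_add, mul_one, ← ee_add]
      congr 2
      push_cast
      ring
    rw [e1, norm_mul, norm_ee, one_mul]
    exact cos_dist _ _ hδ hfar
  rw [hsplit]
  have h1 : ((w u : ℝ) : ℂ) * ee ((u : ℝ) * θ) + (((w v : ℝ) : ℂ) * ee ((v : ℝ) * θ) +
      ∑ a ∈ (A.erase u).erase v, ((w a : ℝ) : ℂ) * ee ((a : ℝ) * θ)) =
      ((η : ℝ) : ℂ) * (ee ((u : ℝ) * θ) + ee ((v : ℝ) * θ)) + (((w u - η : ℝ) : ℂ) * ee ((u : ℝ) * θ) + (((w v - η : ℝ) : ℂ) * ee ((v : ℝ) * θ) +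
        ∑ a ∈ (A.erase u).erase v, ((w a : ℝ) : ℂ) * ee ((a : ℝ) * θ))) := by
    push_cast
    ring
  rw [h1]
  have n1 : ‖((η : ℝ) : ℂ) * (ee ((u : ℝ) * θ) + ee ((v : ℝ) * θ))‖ ≤ η * (2 - 4 * δ ^ 2) := by
    rw [norm_mul, Complex.norm_real, Real.norm_of_nonneg hη]
    exact mul_le_mul_of_nonneg_left hpair hη
  have n2 : ‖((w u - η : ℝ) : ℂ) * ee ((u : ℝ) * θ)‖ = w u - η := by
    rw [norm_mul, norm_ee, mul_one, Complex.norm_real, Real.norm_of_nonneg (by linarith)]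
  have n3 : ‖((w v - η : ℝ) : ℂ) * ee ((v : ℝ) * θ)‖ = w v - η := by
    rw [norm_mul, norm_ee, mul_one, Complex.norm_real, Real.norm_of_nonneg (by linarith)]
  refine (norm_add_le _ _).trans ?_
  refine (add_le_add n1 ((norm_add_le _ _).trans (add_le_add n2.le ((norm_add_le _ _).trans (add_le_add n3.le hrest))))).trans (le_of_eq ?_)
  ring

/-- the probability of a point -/
noncomputable def pw {k : ℕ} (w : Fin k → ℤ → ℝ) (x : Fin k → ℤ) : ℝ := ∏ i, w i (x i)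

/-- the characteristic function is a product -/
lemma char_prod {k : ℕ} (A : Fin k → Finset ℤ) (w : Fin k → ℤ → ℝ) (c : ℤ) (θ : ℝ) :
    ‖∑ x ∈ Fintype.piFinset A, ((pw w x : ℝ) : ℂ) * ee (((c + ∑ i, x i : ℤ) : ℝ) * θ)‖ =
      ∏ i, ‖∑ a ∈ A i, ((w i a : ℝ) : ℂ) * ee ((a : ℝ) * θ)‖ := by
  have ee_sum : ∀ (s : Finset (Fin k)) (x : Fin k → ℤ), ee (((∑ i ∈ s, x i : ℤ) : ℝ) * θ) = ∏ i ∈ s, ee ((x i : ℝ) * θ) := by
    classical
    intro s x
    induction s using Finset.induction_on with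
    | empty => simp [ee_zero]
    | insert i s hi ih =>
      rw [sum_insert hi, prod_insert hi, ← ih, ← ee_add]
      congr 1
      push_cast
      ring
  have h1 : ∑ x ∈ Fintype.piFinset A, ((pw w x : ℝ) : ℂ) * ee (((c + ∑ i, x i : ℤ) : ℝ) * θ) =
      ee ((c : ℝ) * θ) * ∏ i, ∑ a ∈ A i, ((w i a : ℝ) : ℂ) * ee ((a : ℝ) * θ) := by
    rw [prod_univ_sum, mul_sum]
    apply sum_congr rfl
    intro x _
    rw [prod_mul_distrib, ← ee_sum univ x]
    unfold pw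
    push_cast
    rw [show ((c : ℝ) + ∑ i, (x i : ℝ)) * θ = (c : ℝ) * θ + (∑ i, (x i : ℝ)) * θ by ring, ee_add]
    ring
  rw [h1, norm_mul, norm_ee, one_mul, norm_prod]

lemma pw_sum {k : ℕ} (A : Fin k → Finset ℤ) (w : Fin k → ℤ → ℝ) (hsum : ∀ i, ∑ a ∈ A i, w i a = 1) :
    ∑ x ∈ Fintype.piFinset A, pw w x = 1 := by
  unfold pw
  rw [← prod_univ_sum]
  exact prod_eq_one fun i _ => hsum i

/-- one of the summands takes two values with a difference between `y` and `C y`, both with a probability at least `η` -/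
def AllScales {k : ℕ} (A : Fin k → Finset ℤ) (w : Fin k → ℤ → ℝ) (η : ℝ) (C N : ℕ) : Prop :=
  ∀ y : ℕ, 1 ≤ y → y ≤ N → ∃ i, ∃ u ∈ A i, ∃ v ∈ A i, η ≤ w i u ∧ η ≤ w i v ∧ (y : ℤ) ≤ v - u ∧ v - u ≤ C * y

open Classical in
/-- the decay of the characteristic function -/
lemma char_decay {k : ℕ} (A : Fin k → Finset ℤ) (w : Fin k → ℤ → ℝ) (hw : ∀ i, ∀ a ∈ A i, 0 ≤ w i a)
    (hsum : ∀ i, ∑ a ∈ A i, w i a = 1) (η δ : ℝ) (hη : 0 < η) (hδ : 0 ≤ δ) (B : ℕ) (hB : 1 ≤ η * B)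
    (l : ℕ) (lam : ℕ → ℝ) (hmono : ∀ i j, i < j → lam i < lam j) (idx : ℕ → Fin k) (u v : ℕ → ℤ)
    (hu : ∀ j ≤ l, u j ∈ A (idx j) ∧ η ≤ w (idx j) (u j)) (hv : ∀ j ≤ l, v j ∈ A (idx j) ∧ η ≤ w (idx j) (v j))
    (hne : ∀ j ≤ l, u j ≠ v j)
    (hlam : ∀ j ≤ l, lam j = ((v j - u j : ℤ) : ℝ)) (c : ℤ) (θ : ℝ) (n : ℕ) (hn : B ^ 2 * n ≤ FarC δ lam l θ) (γ : ℝ) (hγ : γ = 1 - 4 * η * δ ^ 2)
    (hγ0 : 0 ≤ γ) :
    ‖∑ x ∈ Fintype.piFinset A, ((pw w x : ℝ) : ℂ) * ee (((c + ∑ i, x i : ℤ) : ℝ) * θ)‖ ≤ γ ^ n := by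
  rw [char_prod]
  unfold FarC at hn
  obtain ⟨F, hF⟩ : ∃ F, F = (range (l + 1)).filter (fun j => Far δ (lam j * θ)) := ⟨_, rfl⟩
  rw [← hF] at hn
  obtain ⟨G, hG⟩ : ∃ G, G = F.image idx := ⟨_, rfl⟩
  -- the multiplicities
  have hcard : F.card ≤ B ^ 2 * G.card := by
    rw [hG]
    apply card_le_mul_card_image
    intro i _
    obtain ⟨H, hH⟩ : ∃ H, H = (A i).filter (fun a => η ≤ w i a) := ⟨_, rfl⟩
    have h1 : H.card ≤ B := by
      have e1 : (H.card : ℝ) * η ≤ 1 := by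
        calc (H.card : ℝ) * η = ∑ _a ∈ H, η := by rw [sum_const, nsmul_eq_mul]
          _ ≤ ∑ a ∈ H, w i a := sum_le_sum fun a ha => by rw [hH] at ha; exact (mem_filter.1 ha).2
          _ ≤ ∑ a ∈ A i, w i a := sum_le_sum_of_subset_of_nonneg (by rw [hH]; exact filter_subset _ _) fun a ha _ => hw i a ha
          _ = 1 := hsum i
      have e2 : (H.card : ℝ) * η ≤ B * η := by linarith
      exact_mod_cast le_of_mul_le_mul_right e2 hη
    calc (F.filter (fun j => idx j = i)).card ≤ (H ×ˢ H).card := by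
          apply card_le_card_of_injOn (fun j => (u j, v j))
          · intro j hj
            rw [mem_coe, mem_filter, hF, mem_filter, mem_range] at hj
            have hjl : j ≤ l := by omega
            have e1 := hu j hjl
            have e2 := hv j hjl
            rw [hj.2] at e1 e2
            rw [mem_coe, mem_product, hH, mem_filter, mem_filter]
            exact ⟨e1, e2⟩
          · intro j hj j' hj' hjj
            rw [mem_coe, mem_filter, hF, mem_filter, mem_range] at hj hj'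
            have e1 := hlam j (by omega)
            have e2 := hlam j' (by omega)
            rw [Prod.mk.injEq] at hjj
            rw [hjj.1, hjj.2, ← e2] at e1
            rcases lt_trichotomy j j' with h | h | h
            · exact absurd e1 (hmono _ _ h).ne
            · exact h
            · exact absurd e1 (hmono _ _ h).ne'
      _ = H.card * H.card := card_product _ _
      _ ≤ B * B := Nat.mul_le_mul h1 h1
      _ = B ^ 2 := by ring
  have hGn : n ≤ G.card := by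
    have hB0 : 0 < B := by
      rcases Nat.eq_zero_or_pos B with h | h
      · rw [h, Nat.cast_zero, mul_zero] at hB; linarith
      · exact h
    have : B ^ 2 * n ≤ B ^ 2 * G.card := hn.trans hcard
    exact Nat.le_of_mul_le_mul_left this (by positivity)
  have hγ1 : γ ≤ 1 := by
    rw [hγ]
    have : 0 ≤ 4 * η * δ ^ 2 := by positivity
    linarith
  have h2 : ∏ i, ‖∑ a ∈ A i, ((w i a : ℝ) : ℂ) * ee ((a : ℝ) * θ)‖ ≤ ∏ i, (if i ∈ G then γ else 1) := by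
    apply prod_le_prod (fun _ _ => norm_nonneg _)
    intro i _
    split_ifs with h
    · rw [hG, mem_image] at h
      obtain ⟨j, hj, rfl⟩ := h
      rw [hF, mem_filter, mem_range] at hj
      have hjl : j ≤ l := by omega
      rw [hγ]
      apply one_far (A (idx j)) (w (idx j)) (hw _) (hsum _) θ δ η hδ hη.le (u j) (v j) (hu j hjl).1 (hv j hjl).1 (hne j hjl)
        (hu j hjl).2 (hv j hjl).2
      rw [← hlam j hjl]
      exact hj.2
    · exact one_le (A i) (w i) (hw i) (hsum i) θ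
  refine h2.trans ?_
  rw [prod_ite_mem, univ_inter, prod_const]
  exact pow_le_pow_of_le_one hγ0 hγ1 hGn

lemma ee_int_shift (Y : ℤ) (t M : ℕ) (hM : 1 ≤ M) : ee ((Y : ℝ) * ((t : ℝ) / M)) = ee ((Y : ℝ) * (((t % M : ℕ) : ℝ) / M)) := by
  obtain ⟨q, hq⟩ : ∃ q, q = t / M := ⟨_, rfl⟩
  have hM0 : (M : ℝ) ≠ 0 := by exact_mod_cast (by omega : M ≠ 0)
  have e1 : (t : ℝ) = M * (q : ℝ) + ((t % M : ℕ) : ℝ) := by
    rw [hq]
    exact_mod_cast (Nat.div_add_mod t M).symm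
  have e2 : (Y : ℝ) * ((t : ℝ) / M) = (Y : ℝ) * (((t % M : ℕ) : ℝ) / M) + ((Y * (q : ℤ) : ℤ) : ℝ) := by
    rw [e1]
    push_cast
    field_simp
    ring
  rw [e2, ee_add_int]

/-- the law of a sum of independent random integers with differences at all scales -/
theorem slaw_indep (b C Cr V : ℕ) (hb : 2 ≤ b) (hC : 1 ≤ C) (η : ℝ) (hη : 0 < η) : ∃ A1 : ℕ, ∀ A : ℕ, A1 ≤ A → ∃ K₀ : ℕ, ∀ K : ℕ, K₀ ≤ K →
    ∀ N : ℕ, 1 ≤ N → N ≤ b ^ K → b ^ K ≤ Cr * N → ∀ (k : ℕ) (As : Fin k → Finset ℤ) (w : Fin k → ℤ → ℝ),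
    (∀ i, ∀ a ∈ As i, 0 ≤ w i a) → (∀ i, ∑ a ∈ As i, w i a = 1) → AllScales As w η C N → ∀ c : ℤ,
    SLaw b A V K (Fintype.piFinset As) (pw w) (fun x => c + ∑ i, x i) := by
  obtain ⟨B, hB⟩ := exists_nat_ge (1 / η)
  have hB' : 1 ≤ η * B := by rw [div_le_iff₀ hη] at hB; linarith
  obtain ⟨R, hR⟩ : ∃ R, R = 2 * C ^ 2 := ⟨_, rfl⟩
  obtain ⟨δ, hδ⟩ : ∃ δ : ℝ, δ = 1 / (4 * (1 + (R : ℝ))) := ⟨_, rfl⟩
  have hδ0 : 0 < δ := by rw [hδ]; positivity
  obtain ⟨η', hη'⟩ : ∃ η' : ℝ, η' = min η 1 := ⟨_, rfl⟩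
  obtain ⟨γ, hγ⟩ : ∃ γ : ℝ, γ = 1 - 4 * η' * δ ^ 2 := ⟨_, rfl⟩
  have hη'0 : 0 < η' := by rw [hη']; exact lt_min hη one_pos
  have hη'1 : η' ≤ 1 := by rw [hη']; exact min_le_right _ _
  have hη'η : η' ≤ η := by rw [hη']; exact min_le_left _ _
  have hδ4 : δ ≤ 1 / 4 := by
    rw [hδ]
    apply one_div_le_one_div_of_le (by norm_num)
    have : (0 : ℝ) ≤ R := Nat.cast_nonneg _
    linarith
  have hγ1 : γ < 1 := by
    rw [hγ]
    have : 0 < 4 * η' * δ ^ 2 := by positivity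
    linarith
  have hγ0 : 0 ≤ γ := by
    rw [hγ]
    have h1 : δ ^ 2 ≤ (1 / 4) ^ 2 := pow_le_pow_left₀ hδ0.le hδ4 2
    have h2 : η' * δ ^ 2 ≤ 1 * (1 / 4) ^ 2 := mul_le_mul hη'1 h1 (by positivity) (by norm_num)
    linarith
  obtain ⟨B', hB1⟩ := exists_nat_ge (1 / η')
  have hB1' : 1 ≤ η' * B' := by rw [div_le_iff₀ hη'0] at hB1; linarith
  obtain ⟨D', hD'⟩ : ∃ D' : ℕ, γ ^ D' ≤ 1 / 2 ^ V := by
    obtain ⟨D', hD'⟩ := exists_pow_lt_of_lt_one (by positivity : (0 : ℝ) < 1 / 2 ^ V) hγ1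
    exact ⟨D', hD'.le⟩
  obtain ⟨A1, hA1⟩ := thin_scales b R C (Cr * (2 * C)) C (B' ^ 2 * D') hb hC
  refine ⟨A1, fun A hA => ?_⟩
  obtain ⟨K₀, hK₀⟩ := hA1 A hA
  refine ⟨K₀ + 1, fun K hK N hN1 hNK hKN k As w hw hsum hsc c => ?_⟩
  have hC2 : 2 ≤ 2 * C := by omega
  obtain ⟨l, hl⟩ : ∃ l, l = Nat.log (2 * C) N := ⟨_, rfl⟩
  have hlN : ∀ j ≤ l, (2 * C) ^ j ≤ N := fun j hj =>
    (Nat.pow_le_pow_right (by omega) hj).trans (by rw [hl]; exact Nat.pow_log_le_self _ (by omega))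
  have hex : ∀ j : ℕ, ∃ t : Fin k × ℤ × ℤ, j ≤ l → t.2.1 ∈ As t.1 ∧ t.2.2 ∈ As t.1 ∧ η' ≤ w t.1 t.2.1 ∧ η' ≤ w t.1 t.2.2 ∧
      (((2 * C) ^ j : ℕ) : ℤ) ≤ t.2.2 - t.2.1 ∧ t.2.2 - t.2.1 ≤ C * (((2 * C) ^ j : ℕ) : ℤ) := by
    obtain ⟨i0, _⟩ := hsc 1 le_rfl hN1
    intro j
    by_cases hj : j ≤ l
    · obtain ⟨i, u, hu, v, hv, h1, h2, h3, h4⟩ := hsc ((2 * C) ^ j) (Nat.one_le_pow _ _ (by omega)) (hlN j hj)
      exact ⟨(i, u, v), fun _ => ⟨hu, hv, hη'η.trans h1, hη'η.trans h2, h3, h4⟩⟩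
    · exact ⟨(i0, 0, 0), fun h => absurd h hj⟩
  choose tr htr using hex
  obtain ⟨lam, hlam⟩ : ∃ lam : ℕ → ℝ, lam = fun j => if j ≤ l then (((tr j).2.2 - (tr j).2.1 : ℤ) : ℝ) else (2 * (C : ℝ)) ^ j := ⟨_, rfl⟩
  have hlo : ∀ j, (2 * (C : ℝ)) ^ j ≤ lam j := by
    intro j
    rw [hlam]
    simp only
    split_ifs with h
    · have := (htr j h).2.2.2.2.1
      exact_mod_cast this
    · exact le_rfl
  have hC1 : (1 : ℝ) ≤ C := by exact_mod_cast hC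
  have hup : ∀ j, lam j ≤ C * (2 * (C : ℝ)) ^ j := by
    intro j
    rw [hlam]
    simp only
    split_ifs with h
    · have := (htr j h).2.2.2.2.2
      exact_mod_cast this
    · have : 0 ≤ (2 * (C : ℝ)) ^ j := by positivity
      nlinarith
  have hpos : ∀ j, 0 < lam j := fun j => lt_of_lt_of_le (by positivity) (hlo j)
  have hscl : Scales R lam := by
    constructor
    · exact hpos
    · intro j
      have h1 := hup j
      have h2 := hlo (j + 1)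
      rw [pow_succ] at h2
      calc 2 * lam j ≤ 2 * (C * (2 * (C : ℝ)) ^ j) := by linarith
        _ = (2 * (C : ℝ)) ^ j * (2 * C) := by ring
        _ ≤ _ := h2
    · intro j
      have h1 := hlo j
      have h2 := hup (j + 1)
      rw [hR]
      push_cast
      calc lam (j + 1) ≤ C * (2 * (C : ℝ)) ^ (j + 1) := h2
        _ = 2 * (C : ℝ) ^ 2 * (2 * (C : ℝ)) ^ j := by rw [pow_succ]; ring
        _ ≤ 2 * (C : ℝ) ^ 2 * lam j := mul_le_mul_of_nonneg_left h1 (by positivity)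
  have hmono : ∀ i j, i < j → lam i < lam j := by
    intro i j hij
    have h1 := scales_mono hscl (i + 1) j hij
    have h2 := hscl.two i
    have h3 := hpos i
    linarith
  have hlz : ∀ j ≤ l, lam j = (((tr j).2.2 - (tr j).2.1 : ℤ) : ℝ) := by
    intro j hj
    rw [hlam]
    simp only
    rw [if_pos hj]
  have hpwnn : ∀ x ∈ Fintype.piFinset As, 0 ≤ pw w x := by
    intro x hx
    unfold pw
    exact prod_nonneg fun i _ => hw i _ (Fintype.mem_piFinset.1 hx i)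
  have hM1 : 1 ≤ b ^ (K + 1) := Nat.one_le_pow _ _ (by omega)
  refine ⟨hpwnn, (pw_sum As w hsum).le, fun t => FarC δ lam l ((t : ℝ) / ((b ^ (K + 1) : ℕ) : ℝ)) ≤ B' ^ 2 * D' * (Nat.log 2 K + 1), ?_, ?_⟩
  · intro t ht
    push Not at ht
    have h1 : ∀ x : Fin k → ℤ, ee (((c + ∑ i, x i : ℤ) : ℝ) * ((t : ℝ) / ((b ^ (K + 1) : ℕ) : ℝ))) =
        ee (((c + ∑ i, x i : ℤ) : ℝ) * (((t % b ^ (K + 1) : ℕ) : ℝ) / ((b ^ (K + 1) : ℕ) : ℝ))) := fun x =>
      ee_int_shift _ t _ hM1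
    simp only [h1]
    have h2 := char_decay As w hw hsum η' δ hη'0 hδ0.le B' hB1' l lam hmono (fun j => (tr j).1) (fun j => (tr j).2.1) (fun j => (tr j).2.2)
      (fun j hj => ⟨(htr j hj).1, (htr j hj).2.2.1⟩) (fun j hj => ⟨(htr j hj).2.1, (htr j hj).2.2.2.1⟩) (fun j hj => by
        intro h
        have h3 := (htr j hj).2.2.2.2.1
        rw [h, sub_self] at h3
        have : 1 ≤ (2 * C) ^ j := Nat.one_le_pow _ _ (by omega)
        have h4 : (1 : ℤ) ≤ (((2 * C) ^ j : ℕ) : ℤ) := by exact_mod_cast this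
        linarith) hlz c (((t % b ^ (K + 1) : ℕ) : ℝ) / ((b ^ (K + 1) : ℕ) : ℝ)) (D' * (Nat.log 2 K + 1)) (by
        rw [← mul_assoc]
        exact ht.le) γ hγ hγ0
    refine h2.trans ?_
    rw [pow_mul]
    have hK0 : (0 : ℝ) < K := by exact_mod_cast (by omega : 0 < K)
    have h3 : (γ ^ D') ^ (Nat.log 2 K + 1) ≤ (1 / 2 ^ V) ^ (Nat.log 2 K + 1) := pow_le_pow_left₀ (by positivity) hD' _
    refine h3.trans ?_
    rw [one_div_pow, ← pow_mul, mul_comm V, pow_mul]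
    apply one_div_le_one_div_of_le (by positivity)
    apply pow_le_pow_left₀ hK0.le
    exact_mod_cast (Nat.lt_pow_succ_log_self (by norm_num) K).le
  · intro r0 S hS
    have h0 := hup 0
    have h0' := hlo 0
    rw [pow_zero] at h0 h0'
    rw [mul_one] at h0
    have hll : (N : ℝ) ≤ 2 * C * lam l := by
      have e1 : N < (2 * C) ^ (l + 1) := by rw [hl]; exact Nat.lt_pow_succ_log_self (by omega) N
      have e2 : (N : ℝ) ≤ (2 * (C : ℝ)) ^ (l + 1) := by exact_mod_cast e1.le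
      rw [pow_succ] at e2
      have e3 := hlo l
      nlinarith
    apply hK₀ K (by omega) lam l hscl h0' h0 ?_ ?_ ?_ r0 S ?_
    · have e1 : ((b ^ K : ℕ) : ℝ) ≤ Cr * N := by exact_mod_cast hKN
      refine e1.trans ?_
      push_cast
      have : (0 : ℝ) ≤ Cr := Nat.cast_nonneg _
      nlinarith
    · have e1 := hup l
      have e2 : ((2 * (C : ℝ)) ^ l) ≤ N := by exact_mod_cast hlN l le_rfl
      have e3 : (N : ℝ) ≤ ((b ^ K : ℕ) : ℝ) := by exact_mod_cast hNK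
      exact e1.trans (mul_le_mul_of_nonneg_left (e2.trans e3) (Nat.cast_nonneg _))
    · intro j hj
      exact ⟨_, hlz j hj⟩
    · intro r hr
      have := hS r hr
      rw [hδ] at this
      exact this

end Pool.Agent.HP84.SP
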