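import Pool.Agent.HP84.SP.Indep

set_option autoImplicit false

/-! Level of distribution for almost all values of a sum of independent random integers with differences at all scales. -/

namespace Pool.Agent.HP84.SP
open Finset
open Pool.Agent.W93.LV (Fu)

lemma log_pow_le (W : ℕ) : ∃ N₀ : ℕ, ∀ N : ℕ, N₀ ≤ N → Real.log N ^ W ≤ N := by
  have h := (isLittleO_log_rpow_atTop (r := 1 / ((W : ℝ) + 1)) (by positivity)).def (c := 1) one_pos
  rw [Filter.eventually_atTop] at h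
  obtain ⟨x₀, hx⟩ := h
  refine ⟨⌈x₀⌉₊ + 1, fun N hN => ?_⟩
  have h1 : x₀ ≤ N := (Nat.le_ceil x₀).trans (by exact_mod_cast (by omega : ⌈x₀⌉₊ ≤ N))
  have h2 := hx N h1
  have hN1 : (1 : ℝ) ≤ N := by exact_mod_cast (by omega : 1 ≤ N)
  rw [one_mul, Real.norm_of_nonneg (Real.log_nonneg hN1), Real.norm_of_nonneg (by positivity)] at h2
  calc Real.log N ^ W ≤ ((N : ℝ) ^ (1 / ((W : ℝ) + 1))) ^ W := pow_le_pow_left₀ (Real.log_nonneg hN1) h2 W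
    _ = (N : ℝ) ^ (1 / ((W : ℝ) + 1) * W) := by rw [← Real.rpow_natCast, ← Real.rpow_mul (by linarith)]
    _ ≤ (N : ℝ) ^ (1 : ℝ) := by
        apply Real.rpow_le_rpow_of_exponent_le hN1
        rw [one_div, inv_mul_le_iff₀ (by positivity)]
        linarith
    _ = N := Real.rpow_one _

/-- the choice of the power of two -/
lemma two_pow_choice (B N : ℕ) (hN : 1 ≤ N) : N ≤ 2 ^ (Nat.log 2 N + (B + 3)) ∧ 2 ^ (Nat.log 2 N + (B + 3)) ≤ 2 ^ (B + 3) * N ∧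
    (B + 1) * N < 2 ^ (Nat.log 2 N + (B + 3) - 1) := by
  have h1 : 2 ^ Nat.log 2 N ≤ N := Nat.pow_log_le_self 2 (by omega)
  have h2 : N < 2 ^ (Nat.log 2 N + 1) := Nat.lt_pow_succ_log_self (by norm_num) N
  refine ⟨h2.le.trans (Nat.pow_le_pow_right (by norm_num) (by omega)), ?_, ?_⟩
  · rw [pow_add, mul_comm]
    exact Nat.mul_le_mul_left _ h1
  · rw [show Nat.log 2 N + (B + 3) - 1 = (B + 1) + (Nat.log 2 N + 1) by omega, pow_add]
    have h3 : B + 1 < 2 ^ (B + 1) := Nat.lt_two_pow_self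
    exact Nat.mul_lt_mul_of_le_of_lt h3.le h2 (by omega)

lemma log_le_K (N : ℕ) (hN : 1 ≤ N) (e : ℕ) (he : 1 ≤ e) : Real.log N ≤ ((Nat.log 2 N + e : ℕ) : ℝ) := by
  have h2 : N < 2 ^ (Nat.log 2 N + 1) := Nat.lt_pow_succ_log_self (by norm_num) N
  have hN0 : (0 : ℝ) < N := by exact_mod_cast hN
  have h3 : Real.log N ≤ Real.log ((2 : ℝ) ^ (Nat.log 2 N + 1)) := Real.log_le_log hN0 (by exact_mod_cast h2.le)
  rw [Real.log_pow] at h3
  have h4 : Real.log 2 ≤ 1 := by linarith [Real.log_two_lt_d9]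
  have h5 : (0 : ℝ) ≤ ((Nat.log 2 N + 1 : ℕ) : ℝ) := Nat.cast_nonneg _
  have h6 : ((Nat.log 2 N + 1 : ℕ) : ℝ) * Real.log 2 ≤ ((Nat.log 2 N + 1 : ℕ) : ℝ) * 1 := mul_le_mul_of_nonneg_left h4 h5
  have h7 : ((Nat.log 2 N + 1 : ℕ) : ℝ) ≤ ((Nat.log 2 N + e : ℕ) : ℝ) := by exact_mod_cast (by omega : Nat.log 2 N + 1 ≤ Nat.log 2 N + e)
  linarith

open Classical in
/-- the union bound over shifts and indices -/
lemma union_bd {k : ℕ} (A : Fin k → Finset ℤ) (w : Fin k → ℤ → ℝ) (hw : ∀ i, ∀ a ∈ A i, 0 ≤ w i a) (n L : ℕ) (ρ : ℝ)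
    (E : ℤ → Fin L → (Fin k → ℤ) → Prop) (hE : ∀ t : ℤ, |t| ≤ n → ∀ l, ∑ x ∈ Fintype.piFinset A, (if E t l x then pw w x else 0) ≤ ρ)
    (Good : (Fin k → ℤ) → Prop) (hG : ∀ x ∈ Fintype.piFinset A, ¬ Good x → ∃ t : ℤ, |t| ≤ n ∧ ∃ l, E t l x) :
    ∑ x ∈ Fintype.piFinset A, (if Good x then 0 else pw w x) ≤ (2 * n + 1) * L * ρ := by
  have hpwnn : ∀ x ∈ Fintype.piFinset A, 0 ≤ pw w x := by
    intro x hx
    unfold pw
    exact prod_nonneg fun i _ => hw i _ (Fintype.mem_piFinset.1 hx i)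
  have h1 : ∀ x ∈ Fintype.piFinset A, (if Good x then 0 else pw w x) ≤
      ∑ t ∈ Icc (-(n : ℤ)) n, ∑ l, (if E t l x then pw w x else 0) := by
    intro x hx
    have hnn : ∀ t ∈ Icc (-(n : ℤ)) n, 0 ≤ ∑ l, (if E t l x then pw w x else 0) := by
      intro t _
      apply sum_nonneg
      intro l _
      split_ifs
      · exact hpwnn x hx
      · exact le_rfl
    split_ifs with hg
    · exact sum_nonneg hnn
    · obtain ⟨t, ht, l, hl⟩ := hG x hx hg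
      rw [abs_le] at ht
      refine le_trans ?_ (single_le_sum hnn (mem_Icc.2 ht))
      have h2 : ∀ l ∈ (univ : Finset (Fin L)), 0 ≤ (if E t l x then pw w x else 0) := by
        intro l _
        split_ifs
        · exact hpwnn x hx
        · exact le_rfl
      refine le_trans ?_ (single_le_sum h2 (mem_univ l))
      rw [if_pos hl]
  refine (sum_le_sum h1).trans ?_
  rw [sum_comm]
  have h2 : ∀ t ∈ Icc (-(n : ℤ)) n, ∑ x ∈ Fintype.piFinset A, ∑ l, (if E t l x then pw w x else 0) ≤ L * ρ := by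
    intro t ht
    rw [sum_comm]
    rw [mem_Icc, ← abs_le] at ht
    refine (sum_le_sum fun l _ => hE t ht l).trans (le_of_eq ?_)
    rw [sum_const, card_univ, Fintype.card_fin, nsmul_eq_mul]
  refine (sum_le_sum h2).trans (le_of_eq ?_)
  rw [sum_const, Int.card_Icc, nsmul_eq_mul]
  have : ((n : ℤ) + 1 - -(n : ℤ)).toNat = 2 * n + 1 := by omega
  rw [this]
  push_cast
  ring

open Classical in
/-- **Level of distribution for almost all values of sums of independent random integers.** -/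
theorem level_indep (B C T U W : ℕ) (η ε : ℝ) (hη : 0 < η) (hε : 0 < ε) : ∃ N₀ : ℕ, ∀ N : ℕ, N₀ ≤ N →
    ∀ (k : ℕ) (A : Fin k → Finset ℤ) (w : Fin k → ℤ → ℝ),
    (∀ i, ∀ a ∈ A i, 0 ≤ w i a) → (∀ i, ∑ a ∈ A i, w i a = 1) → AllScales A w η C N →
    (∀ x ∈ Fintype.piFinset A, |∑ i, x i| ≤ B * N) →
    ∀ L : ℕ, (L : ℝ) ≤ Real.log N ^ T → ∀ lam : Fin L → ℕ → ℝ, (∀ l q, |lam l q| ≤ Real.log N ^ T) →
    ∑ x ∈ Fintype.piFinset A, (if (∀ a : ℕ, 0 < a → |(a : ℝ) - ((∑ i, x i : ℤ) : ℝ)| ≤ Real.log N ^ W → ∀ l, ∀ y ≤ B * N,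
      |∑ q ∈ (Icc 1 ⌊(N : ℝ) ^ (1 - ε)⌋₊).filter (fun q => a.Coprime q),
        lam l q * (Fu (fun n => ArithmeticFunction.vonMangoldt n) y q a - (y : ℝ) / Nat.totient q)| ≤ N / Real.log N ^ U)
      then 0 else pw w x) ≤ 1 / Real.log N ^ U := by
  rcases Nat.eq_zero_or_pos C with hC0 | hC
  · refine ⟨1, fun N hN k A w _ _ hsc => ?_⟩
    exfalso
    obtain ⟨i, u, hu, v, hv, h1, h2, h3, h4⟩ := hsc 1 le_rfl hN
    rw [hC0] at h4
    push_cast at h3 h4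
    linarith
  obtain ⟨U1, hU1⟩ : ∃ U1, U1 = U + W + T + 1 := ⟨_, rfl⟩
  obtain ⟨ε', hε'⟩ : ∃ ε' : ℝ, ε' = min ε 1 := ⟨_, rfl⟩
  have hε'0 : 0 < ε' := by rw [hε']; exact lt_min hε one_pos
  have hε'1 : ε' ≤ 1 := by rw [hε']; exact min_le_right _ _
  have hε'ε : ε' ≤ ε := by rw [hε']; exact min_le_left _ _
  obtain ⟨V, A0, hV⟩ := lv_lawG 2 le_rfl ε' hε'0 T U1
  obtain ⟨A1, hA1⟩ := slaw_indep 2 C (2 ^ (B + 3)) V le_rfl hC η hη
  obtain ⟨K1, hK1⟩ := hV (max A0 A1) (le_max_left _ _)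
  obtain ⟨K2, hK2⟩ := hA1 (max A0 A1) (le_max_right _ _)
  obtain ⟨N3, hN3⟩ := log_pow_le W
  obtain ⟨E3, hE3⟩ : ∃ E3 : ℕ, E3 = 2 ^ (B + 3) := ⟨_, rfl⟩
  obtain ⟨P, hP⟩ : ∃ P : ℕ, P = 2 ^ (K1 + K2 + E3 + 3) := ⟨_, rfl⟩
  refine ⟨P + N3 + 3, fun N hN k A w hw hsum hsc hY L hL lam hlam => ?_⟩
  have hN1 : 1 ≤ N := by omega
  obtain ⟨K, hK⟩ : ∃ K, K = Nat.log 2 N + (B + 3) := ⟨_, rfl⟩
  have hKbig : K1 + K2 + E3 + 3 ≤ K := by
    have h1 : K1 + K2 + E3 + 3 ≤ Nat.log 2 N := by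
      rw [← Nat.log_pow (b := 2) (by norm_num) (K1 + K2 + E3 + 3), ← hP]
      exact Nat.log_mono_right (by omega)
    omega
  obtain ⟨c1, c2, c3⟩ := two_pow_choice B N hN1
  rw [← hK] at c1 c2 c3
  rw [← hE3] at c2
  have hlogK : Real.log N ≤ K := by rw [hK]; exact log_le_K N hN1 (B + 3) (by omega)
  have hNr : (3 : ℝ) ≤ N := by exact_mod_cast (by omega : 3 ≤ N)
  have hN0 : (0 : ℝ) < N := by linarith
  have hlog1 : 1 ≤ Real.log N := by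
    rw [Real.le_log_iff_exp_le hN0]
    linarith [Real.exp_one_lt_d9]
  have hlog0 : 0 < Real.log N := by linarith
  have hKr : (3 : ℝ) ≤ K := by exact_mod_cast (by omega : 3 ≤ K)
  have hK0 : (0 : ℝ) < K := by linarith
  have hK1' : (1 : ℝ) ≤ K := by linarith
  obtain ⟨n, hn⟩ : ∃ n, n = ⌊Real.log N ^ W⌋₊ := ⟨_, rfl⟩
  have hnW : (n : ℝ) ≤ Real.log N ^ W := by rw [hn]; exact Nat.floor_le (by positivity)
  have hnN : n ≤ N := by
    have h1 : (n : ℝ) ≤ N := hnW.trans (hN3 N (by omega))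
    exact_mod_cast h1
  have h2K : 2 * 2 ^ (K - 1) = 2 ^ K := by
    obtain ⟨K', rfl⟩ : ∃ K', K = K' + 1 := ⟨K - 1, by omega⟩
    rw [Nat.add_sub_cancel, pow_succ]; ring
  have hQ : (⌊(N : ℝ) ^ (1 - ε)⌋₊ : ℝ) ≤ ((2 ^ K : ℕ) : ℝ) ^ (1 - ε') := by
    refine (Nat.floor_le (by positivity)).trans ?_
    have e1 : (N : ℝ) ^ (1 - ε) ≤ (N : ℝ) ^ (1 - ε') := Real.rpow_le_rpow_of_exponent_le (by linarith) (by linarith)
    refine e1.trans ?_
    exact Real.rpow_le_rpow hN0.le (by exact_mod_cast c1) (by linarith)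
  have hfin : ((2 ^ K : ℕ) : ℝ) / (K : ℝ) ^ U1 ≤ N / Real.log N ^ U := by
    have e1 : ((2 ^ K : ℕ) : ℝ) ≤ (E3 : ℝ) * (N : ℝ) := by exact_mod_cast c2
    have e2 : (E3 : ℝ) ≤ K := by exact_mod_cast (by omega : E3 ≤ K)
    rw [div_le_div_iff₀ (by positivity) (by positivity)]
    have e3 : Real.log N ^ U ≤ (K : ℝ) ^ U := pow_le_pow_left₀ hlog0.le hlogK U
    have e4 : (K : ℝ) ^ U * K ≤ (K : ℝ) ^ U1 := by
      rw [← pow_succ]
      exact pow_le_pow_right₀ hK1' (by omega)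
    calc ((2 ^ K : ℕ) : ℝ) * Real.log N ^ U ≤ ((E3 : ℝ) * (N : ℝ)) * (K : ℝ) ^ U := mul_le_mul e1 e3 (by positivity) (by positivity)
      _ ≤ (K * (N : ℝ)) * (K : ℝ) ^ U := by gcongr
      _ = N * ((K : ℝ) ^ U * K) := by ring
      _ ≤ _ := mul_le_mul_of_nonneg_left e4 hN0.le
  have key := union_bd A w hw n L (1 / (K : ℝ) ^ U1) (fun t l x => 0 < t + ∑ i, x i ∧ ∃ y ≤ 2 ^ (K - 1), ((2 ^ K : ℕ) : ℝ) / (K : ℝ) ^ U1 <
      |∑ q ∈ (Icc 1 ⌊(N : ℝ) ^ (1 - ε)⌋₊).filter (fun q => (t + ∑ i, x i).toNat.Coprime q),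
        lam l q * (Fu (fun n => ArithmeticFunction.vonMangoldt n) y q (t + ∑ i, x i).toNat - (y : ℝ) / Nat.totient q)|) (by
    intro t ht l
    have hlaw := hK2 K (by omega) N hN1 c1 (hE3 ▸ c2) k A w hw hsum hsc t
    have hrange : ∀ x ∈ Fintype.piFinset A, -((2 ^ K : ℕ) : ℤ) < (t + ∑ i, x i) ∧ (t + ∑ i, x i) ≤ ((2 ^ (K - 1) : ℕ) : ℤ) := by
      intro x hx
      have e1 := hY x hx
      have e2 : |t| ≤ (N : ℤ) := ht.trans (by exact_mod_cast hnN)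
      have e3 : |t + ∑ i, x i| ≤ (N : ℤ) + B * N := (abs_add_le _ _).trans (add_le_add e2 e1)
      have e4 : ((B : ℤ) + 1) * N < ((2 ^ (K - 1) : ℕ) : ℤ) := by exact_mod_cast c3
      have e5 : (2 : ℤ) * ((2 ^ (K - 1) : ℕ) : ℤ) = ((2 ^ K : ℕ) : ℤ) := by exact_mod_cast h2K
      rw [abs_le] at e3
      have e6 : (N : ℤ) + B * N = ((B : ℤ) + 1) * N := by ring
      rw [e6] at e3
      have e7 : (0 : ℤ) ≤ ((2 ^ (K - 1) : ℕ) : ℤ) := Int.natCast_nonneg _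
      constructor <;> linarith [e3.1, e3.2]
    have h := hK1 K (by omega) _ _ _ _ hlaw hrange (lam l) (fun q => (hlam l q).trans (pow_le_pow_left₀ hlog0.le hlogK T)) _ hQ
      (fun x => 0 < t + ∑ i, x i ∧ ∃ y ≤ 2 ^ (K - 1), ((2 ^ K : ℕ) : ℝ) / (K : ℝ) ^ U1 <
      |∑ q ∈ (Icc 1 ⌊(N : ℝ) ^ (1 - ε)⌋₊).filter (fun q => (t + ∑ i, x i).toNat.Coprime q),
        lam l q * (Fu (fun n => ArithmeticFunction.vonMangoldt n) y q (t + ∑ i, x i).toNat - (y : ℝ) / Nat.totient q)|) (fun x _ hx => hx)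
    refine le_trans (le_of_eq ?_) h
    refine sum_congr rfl fun x _ => ?_
    congr)
    (fun x => ∀ a : ℕ, 0 < a → |(a : ℝ) - ((∑ i, x i : ℤ) : ℝ)| ≤ Real.log N ^ W → ∀ l, ∀ y ≤ B * N,
      |∑ q ∈ (Icc 1 ⌊(N : ℝ) ^ (1 - ε)⌋₊).filter (fun q => a.Coprime q),
        lam l q * (Fu (fun n => ArithmeticFunction.vonMangoldt n) y q a - (y : ℝ) / Nat.totient q)| ≤ N / Real.log N ^ U) (by
    intro x _ hx
    push Not at hx
    obtain ⟨a, ha0, haW, l, y, hy, hlt⟩ := hx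
    refine ⟨(a : ℤ) - ∑ i, x i, ?_, l, ?_, y, ?_, ?_⟩
    · have e1 : ((|(a : ℤ) - ∑ i, x i| : ℤ) : ℝ) = |(a : ℝ) - ((∑ i, x i : ℤ) : ℝ)| := by push_cast; ring_nf
      have e2 : (((|(a : ℤ) - ∑ i, x i|).toNat : ℕ) : ℝ) ≤ Real.log N ^ W := by
        have : (((|(a : ℤ) - ∑ i, x i|).toNat : ℕ) : ℝ) = ((|(a : ℤ) - ∑ i, x i| : ℤ) : ℝ) := by
          exact_mod_cast congrArg (Int.cast (R := ℝ)) (Int.toNat_of_nonneg (abs_nonneg ((a : ℤ) - ∑ i, x i)))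
        rw [this, e1]
        exact haW
      have e3 : (|(a : ℤ) - ∑ i, x i|).toNat ≤ n := by rw [hn]; exact Nat.le_floor e2
      omega
    · rw [sub_add_cancel]
      exact_mod_cast ha0
    · refine hy.trans ?_
      have : B * N ≤ (B + 1) * N := Nat.mul_le_mul_right _ (by omega)
      exact this.trans c3.le
    · rw [sub_add_cancel, Int.toNat_natCast]
      exact lt_of_le_of_lt hfin hlt)
  refine le_trans (le_of_eq ?_) (key.trans ?_)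
  · apply sum_congr rfl
    intro x _
    rfl
  · rw [mul_one_div, div_le_div_iff₀ (by positivity) (by positivity), one_mul]
    have e1 : (2 * (n : ℝ) + 1) ≤ 3 * Real.log N ^ W := by
      have : 1 ≤ Real.log N ^ W := one_le_pow₀ hlog1
      linarith
    have e2 : Real.log N ^ U ≤ (K : ℝ) ^ U := pow_le_pow_left₀ hlog0.le hlogK U
    have e3 : Real.log N ^ W ≤ (K : ℝ) ^ W := pow_le_pow_left₀ hlog0.le hlogK W
    have e4 : (L : ℝ) ≤ (K : ℝ) ^ T := hL.trans (pow_le_pow_left₀ hlog0.le hlogK T)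
    have e5 : (2 * (n : ℝ) + 1) ≤ K * (K : ℝ) ^ W := by
      calc (2 * (n : ℝ) + 1) ≤ 3 * Real.log N ^ W := e1
        _ ≤ K * (K : ℝ) ^ W := mul_le_mul hKr e3 (by positivity) hK0.le
    calc (2 * (n : ℝ) + 1) * L * Real.log N ^ U ≤ (K * (K : ℝ) ^ W) * (K : ℝ) ^ T * (K : ℝ) ^ U := by gcongr
      _ = (K : ℝ) ^ U1 := by rw [hU1]; ring

end Pool.Agent.HP84.SP
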