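import Pool.Agent.W93.AU18
import Pool.Agent.HP84.SP.Defs

set_option autoImplicit false

/-! Frequencies near rational numbers, and the `L²` norm of the exponential sum over primes (minus its model)
over thin sets of frequencies. -/

namespace Pool.Agent.HP84.SP
open Finset
open Pool.Agent.H807R2.Dav
open Pool.Agent.H373R2.T7
open Pool.Agent.W93.DG
open Pool.Agent.W93.RD
open Pool.Agent.W93.TD

/-- the pointwise bound off the arcs -/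
lemma pt_bound (X M Q r : ℕ) (hQ : 1 ≤ Q) (hQX : Q ^ 4 ≤ X) (f : ℕ → ℝ) (Φ : ℝ) (hΦ : 0 ≤ Φ)
    (hf : ∀ V q : ℕ, 1 ≤ V → (V * V) * (V * V) ≤ X → 1 ≤ q → q ≤ X →
      ∀ c : ℤ, IsCoprime c (q : ℤ) → ∀ α : ℝ, |α - c / q| ≤ 1 / (q : ℝ) ^ 2 →
      ‖∑ n ∈ Icc 1 X, ((f n : ℝ) : ℂ) * ee ((n : ℝ) * α)‖ ≤ Φ * √(1 / (q : ℝ) + 1 / V + q / X))
    (hr : ¬ Maj X M Q r) : ‖FF f X M r‖ ^ 2 ≤ 3 * Φ ^ 2 / Q := by
  have hX1 : 1 ≤ X := (Nat.one_le_pow 4 Q (by omega)).trans hQX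
  have hQr : (1 : ℝ) ≤ Q := by exact_mod_cast hQ
  have hQ0 : (0 : ℝ) < Q := by linarith
  have hXr : (1 : ℝ) ≤ X := by exact_mod_cast hX1
  have hX0 : (0 : ℝ) < X := by linarith
  have hQleX : Q ≤ X := (Nat.le_self_pow (by norm_num) Q).trans hQX
  obtain ⟨n, hn⟩ : ∃ n, n = X / Q := ⟨_, rfl⟩
  have hn1 : 1 ≤ n := by rw [hn]; exact (Nat.one_le_div_iff (by omega)).2 hQleX
  obtain ⟨u, hu1, hu2⟩ := Real.exists_rat_abs_sub_le_and_den_le ((r : ℝ) / M) (n := n) (by omega)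
  obtain ⟨q, hq⟩ : ∃ q, q = u.den := ⟨_, rfl⟩
  obtain ⟨c, hc⟩ : ∃ c, c = u.num := ⟨_, rfl⟩
  have hq1 : 1 ≤ q := by rw [hq]; exact u.pos
  have hqr : (1 : ℝ) ≤ q := by exact_mod_cast hq1
  have hq0 : (0 : ℝ) < q := by linarith
  have hucast : (u : ℝ) = (c : ℝ) / q := by rw [hc, hq]; exact_mod_cast (Rat.num_div_den u).symm
  rw [hucast, ← hq] at hu1
  rw [← hq] at hu2
  have hnX : X < (n + 1) * Q := by
    rw [hn, mul_comm]
    exact Nat.lt_mul_div_succ X (by omega)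
  have hnXr : (X : ℝ) < ((n : ℝ) + 1) * Q := by exact_mod_cast hnX
  have hqQ : Q < q := by
    by_contra hcon
    push Not at hcon
    apply hr
    refine ⟨q, hq1, hcon, c, hu1.trans ?_⟩
    rw [div_le_div_iff₀ (by positivity) (by positivity)]
    nlinarith
  have hqn : (q : ℝ) ≤ n := by exact_mod_cast hu2
  have hnQ : (n : ℝ) * Q ≤ X := by
    have : n * Q ≤ X := by rw [hn]; exact Nat.div_mul_le_self _ _
    exact_mod_cast this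
  have hqX : q ≤ X := by
    have : q ≤ n := hu2
    have h2 : n ≤ X := by rw [hn]; exact Nat.div_le_self _ _
    omega
  have hcop : IsCoprime c (q : ℤ) := by
    rw [hc, hq, Int.isCoprime_iff_gcd_eq_one, Int.gcd, Int.natAbs_natCast]
    exact u.reduced
  have key := hf Q q hQ (le_trans (le_of_eq (by ring)) hQX) hq1 hqX c hcop ((r : ℝ) / M) (by
    refine hu1.trans ?_
    rw [div_le_div_iff₀ (by positivity) (by positivity)]
    nlinarith)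
  have h3 : 1 / (q : ℝ) + 1 / Q + q / X ≤ 3 / Q := by
    have hqQr : (Q : ℝ) ≤ q := by exact_mod_cast hqQ.le
    have a1 : 1 / (q : ℝ) ≤ 1 / Q := one_div_le_one_div_of_le hQ0 hqQr
    have a2 : (q : ℝ) / X ≤ 1 / Q := by
      rw [div_le_div_iff₀ hX0 hQ0]
      nlinarith
    have a3 : (3 : ℝ) / Q = 1 / Q + 1 / Q + 1 / Q := by ring
    linarith
  have h4 : ‖FF f X M r‖ ≤ Φ * √(3 / Q) := key.trans (mul_le_mul_of_nonneg_left (Real.sqrt_le_sqrt h3) hΦ)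
  calc ‖FF f X M r‖ ^ 2 ≤ (Φ * √(3 / Q)) ^ 2 := pow_le_pow_left₀ (norm_nonneg _) h4 2
    _ = 3 * Φ ^ 2 / Q := by
        rw [mul_pow, Real.sq_sqrt (by positivity)]
        ring

open Classical in
/-- summation over the arcs -/
lemma arc_sum (X M Q0 J : ℕ) (S : Finset ℕ) (g : ℕ → ℝ) (Ψ y : ℝ) (hΨ : 0 ≤ Ψ) (hy : 0 < y) (hQy : (Q0 : ℝ) = y ^ 2)
    (hpt : ∀ j ≤ J, ∀ r, ¬ Maj X M (4 ^ j * Q0) r → g r ≤ Ψ / (4 ^ j * Q0 : ℕ))
    (hcard : ∀ j, 1 ≤ j → j ≤ J → ((S.filter (fun r => Maj X M (4 ^ j * Q0) r)).card : ℝ) ≤ 2 ^ j * y)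
    (hS : ∀ r ∈ S, ¬ Maj X M Q0 r) :
    ∑ r ∈ S, g r ≤ 4 * Ψ / y + S.card * (Ψ / (4 ^ J * Q0 : ℕ)) := by
  have h1 : ∀ r ∈ S, g r ≤ ∑ j ∈ range J, (if Maj X M (4 ^ (j + 1) * Q0) r then Ψ / (4 ^ j * Q0 : ℕ) else 0) + Ψ / (4 ^ J * Q0 : ℕ) := by
    intro r hr
    have hnn : ∀ j ∈ range J, 0 ≤ (if Maj X M (4 ^ (j + 1) * Q0) r then Ψ / ((4 ^ j * Q0 : ℕ) : ℝ) else 0) := by
      intro j _
      split_ifs <;> positivity
    by_cases hex : ∃ j, j ≤ J ∧ Maj X M (4 ^ j * Q0) r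
    · obtain ⟨j, hj, hmin⟩ : ∃ j, (j ≤ J ∧ Maj X M (4 ^ j * Q0) r) ∧ ∀ i < j, ¬ (i ≤ J ∧ Maj X M (4 ^ i * Q0) r) :=
        ⟨Nat.find hex, Nat.find_spec hex, fun i hi => Nat.find_min hex hi⟩
      have hj0 : j ≠ 0 := by
        rintro rfl
        apply hS r hr
        have := hj.2
        rwa [pow_zero, one_mul] at this
      obtain ⟨i, rfl⟩ : ∃ i, j = i + 1 := ⟨j - 1, by omega⟩
      have h2 : ¬ Maj X M (4 ^ i * Q0) r := fun h => hmin i (by omega) ⟨by omega, h⟩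
      have h3 := hpt i (by omega) r h2
      have h4 := single_le_sum hnn (mem_range.2 (by omega : i < J))
      rw [if_pos hj.2] at h4
      have h5 : 0 ≤ Ψ / ((4 ^ J * Q0 : ℕ) : ℝ) := by positivity
      linarith
    · push Not at hex
      have h3 := hpt J le_rfl r (hex J le_rfl)
      have := sum_nonneg hnn
      linarith
  refine (sum_le_sum h1).trans ?_
  rw [sum_add_distrib, sum_const, nsmul_eq_mul]
  apply add_le_add _ le_rfl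
  rw [sum_comm]
  have h2 : ∀ j ∈ range J, ∑ r ∈ S, (if Maj X M (4 ^ (j + 1) * Q0) r then Ψ / ((4 ^ j * Q0 : ℕ) : ℝ) else 0) ≤ 2 * Ψ / y * (1 / 2) ^ j := by
    intro j hj
    rw [mem_range] at hj
    rw [← sum_filter, sum_const, nsmul_eq_mul]
    have h3 := hcard (j + 1) (by omega) (by omega)
    have h4 : 0 ≤ Ψ / ((4 ^ j * Q0 : ℕ) : ℝ) := by positivity
    refine (mul_le_mul_of_nonneg_right h3 h4).trans (le_of_eq ?_)
    push_cast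
    rw [hQy]
    have e1 : (4 : ℝ) ^ j = 2 ^ j * 2 ^ j := by rw [← mul_pow]; norm_num
    rw [e1, one_div, inv_pow, pow_succ]
    field_simp
  refine (sum_le_sum h2).trans ?_
  rw [← mul_sum]
  have h3 : ∑ j ∈ range J, ((1 : ℝ) / 2) ^ j ≤ 2 := by
    have := geom_sum_eq (x := (1 : ℝ) / 2) (by norm_num) J
    rw [this]
    have : (0 : ℝ) ≤ (1 / 2) ^ J := by positivity
    have e2 : ((1 / 2 : ℝ) ^ J - 1) / (1 / 2 - 1) = 2 - 2 * (1 / 2) ^ J := by ring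
    rw [e2]
    linarith
  have h4 : 0 ≤ 2 * Ψ / y := by positivity
  calc _ ≤ 2 * Ψ / y * 2 := mul_le_mul_of_nonneg_left h3 h4
    _ = _ := by ring

lemma sqG_num (k b X M L y N Ψ : ℝ) (U : ℕ) (hk : 1 ≤ k) (hX : 0 < X) (hXM : X ≤ M) (hL0 : 0 ≤ L) (hL : L ≤ b * k)
    (hΨ : Ψ = 3 * (200000 * L ^ 7 * X) ^ 2) (hy : k ^ (U + 16) ≤ y) (hN : N ≤ 4 / k ^ (U + 16)) :
    4 * Ψ / y + Ψ * N ≤ 24 * (200000 ^ 2) * b ^ 14 * (M * X / k ^ (U + 2)) := by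
  have hk0 : 0 < k := by linarith
  have hkA : 0 < k ^ (U + 16) := by positivity
  have hΨ0 : 0 ≤ Ψ := by rw [hΨ]; positivity
  have h1 : 4 * Ψ / y ≤ 4 * Ψ / k ^ (U + 16) := div_le_div_of_nonneg_left (by positivity) hkA hy
  have h2 : Ψ * N ≤ Ψ * (4 / k ^ (U + 16)) := mul_le_mul_of_nonneg_left hN hΨ0
  have h3 : Ψ ≤ 3 * 200000 ^ 2 * b ^ 14 * (k ^ 14 * (M * X)) := by
    rw [hΨ]
    have e1 : L ^ 14 ≤ (b * k) ^ 14 := pow_le_pow_left₀ hL0 hL 14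
    have e2 : X * X ≤ M * X := mul_le_mul_of_nonneg_right hXM hX.le
    calc 3 * (200000 * L ^ 7 * X) ^ 2 = 3 * 200000 ^ 2 * (L ^ 14 * (X * X)) := by ring
      _ ≤ 3 * 200000 ^ 2 * ((b * k) ^ 14 * (M * X)) := by gcongr
      _ = _ := by rw [mul_pow]; ring
  have h4 : 4 * Ψ / y + Ψ * N ≤ 8 * Ψ / k ^ (U + 16) := by
    calc _ ≤ 4 * Ψ / k ^ (U + 16) + Ψ * (4 / k ^ (U + 16)) := add_le_add h1 h2
      _ = _ := by ring
  refine h4.trans ?_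
  rw [show U + 16 = 14 + (U + 2) by ring, pow_add]
  rw [div_le_iff₀ (by positivity)]
  calc 8 * Ψ ≤ 8 * (3 * 200000 ^ 2 * b ^ 14 * (k ^ 14 * (M * X))) := mul_le_mul_of_nonneg_left h3 (by norm_num)
    _ = _ := by field_simp; ring

lemma sup_num (k X M L : ℝ) (A U U' : ℕ) (hk : 1 ≤ k) (hX : 0 < X) (hXM : X ≤ M) (hL : k / 2 ≤ L) (hU : U' = A + U + 2) :
    k ^ A * (X / L ^ U') ^ 2 ≤ 2 ^ (2 * U') * (M * X / k ^ (U + 2)) := by
  have hk0 : 0 < k := by linarith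
  have hM0 : 0 < M := by linarith
  have hL0 : 0 < L := by linarith
  have e1 : 1 / L ^ U' ≤ 2 ^ U' / k ^ U' := by
    rw [← div_pow, ← one_div_pow]
    apply pow_le_pow_left₀ (by positivity)
    rw [div_le_div_iff₀ hL0 hk0]
    linarith
  have e2 : (X / L ^ U') ^ 2 ≤ (X * (2 ^ U' / k ^ U')) ^ 2 := by
    apply pow_le_pow_left₀ (by positivity)
    calc X / L ^ U' = X * (1 / L ^ U') := by ring
      _ ≤ _ := mul_le_mul_of_nonneg_left e1 hX.le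
  have e3 : (k : ℝ) ^ A * (1 / k ^ (2 * U')) ≤ 1 / k ^ (U + 2) := by
    rw [mul_one_div, div_le_div_iff₀ (by positivity) (by positivity), one_mul, ← pow_add]
    exact pow_le_pow_right₀ hk (by omega)
  calc k ^ A * (X / L ^ U') ^ 2 ≤ k ^ A * (X * (2 ^ U' / k ^ U')) ^ 2 := mul_le_mul_of_nonneg_left e2 (by positivity)
    _ = 2 ^ (2 * U') * (X * X) * (k ^ A * (1 / k ^ (2 * U'))) := by
        rw [mul_pow, div_pow, ← pow_mul, ← pow_mul, mul_comm U' 2]; ring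
    _ ≤ 2 ^ (2 * U') * (M * X) * (1 / k ^ (U + 2)) := by gcongr
    _ = _ := by ring

lemma small_num (S q X k V : ℕ) (hk : 1 ≤ k) (h1 : S ^ 32 ≤ X) (h2 : X < (4 * q) ^ 16) (h3 : k ^ (32 * V) ≤ X) :
    (S : ℝ) * (1 / (q : ℝ)) ≤ 4 / (k : ℝ) ^ V := by
  have hq : 0 < q := by
    rcases Nat.eq_zero_or_pos q with h | h
    · rw [h] at h2; simp at h2
    · exact h
  have h4 : (S * k ^ V) ^ 32 ≤ (4 * q) ^ 32 := by
    calc (S * k ^ V) ^ 32 = S ^ 32 * k ^ (32 * V) := by rw [mul_pow, ← pow_mul, mul_comm V 32]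
      _ ≤ X * X := Nat.mul_le_mul h1 h3
      _ ≤ (4 * q) ^ 16 * (4 * q) ^ 16 := Nat.mul_le_mul h2.le h2.le
      _ = _ := by rw [← pow_add]
  have h5 : S * k ^ V ≤ 4 * q := (Nat.pow_le_pow_iff_left (by norm_num)).1 h4
  have h6 : (S : ℝ) * (k : ℝ) ^ V ≤ 4 * q := by exact_mod_cast h5
  have hq0 : (0 : ℝ) < q := by exact_mod_cast hq
  have hk0 : (0 : ℝ) < k := by exact_mod_cast (by omega : 0 < k)
  rw [mul_one_div, div_le_div_iff₀ hq0 (by positivity)]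
  exact h6

open Classical in
/-- the `L²` norm over a thin set of frequencies -/
theorem bad_sqG (b : ℕ) (hb : 2 ≤ b) (U A : ℕ) (hA : U + 16 ≤ A) : ∃ B : ℕ, ∀ Ez : ℕ, ∃ k₀ : ℕ, ∀ k : ℕ, k₀ ≤ k →
    ∀ z : ℕ, Real.log ((b ^ k : ℕ) : ℝ) ^ B ≤ z → (z : ℝ) ≤ Real.log ((b ^ k : ℕ) : ℝ) ^ Ez →
    ∀ S : Finset ℕ, (∀ r ∈ S, r < b ^ (k + 1)) → Thin b A k S →
    ∑ r ∈ S, ‖FF (fun n => ArithmeticFunction.vonMangoldt n - lamz z n) (b ^ k) (b ^ (k + 1)) r‖ ^ 2 ≤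
      ((b ^ (k + 1) : ℕ) : ℝ) * ((b ^ k : ℕ) : ℝ) / (k : ℝ) ^ U := by
  obtain ⟨U', hU'⟩ : ∃ U', U' = A + U + 2 := ⟨_, rfl⟩
  obtain ⟨B, hsup⟩ := sup_diff U'
  refine ⟨B, fun Ez => ?_⟩
  obtain ⟨n1, h1⟩ := hsup Ez
  obtain ⟨n2, h2⟩ := model Ez (U + 2)
  have hbig : ∀ V : ℕ, ∃ k2 : ℕ, ∀ k : ℕ, k2 ≤ k → k ^ V ≤ b ^ k := by
    intro V
    have hlim := isLittleO_pow_const_const_pow_of_one_lt (R := ℝ) V (r := (b : ℝ)) (by exact_mod_cast (by omega : 1 < b))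
    have h2 := hlim.def (c := 1) (by norm_num)
    rw [Filter.eventually_atTop] at h2
    obtain ⟨k2, hk2⟩ := h2
    refine ⟨k2, fun k hk => ?_⟩
    have h3 := hk2 k hk
    rw [Real.norm_of_nonneg (by positivity), Real.norm_of_nonneg (by positivity), one_mul] at h3
    exact_mod_cast h3
  obtain ⟨n3, h3⟩ := hbig (2 * A * 16)
  have hbr : (2 : ℝ) ≤ b := by exact_mod_cast hb
  have hb0 : (0 : ℝ) < b := by linarith
  have hbn : 0 < b := by omega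
  obtain ⟨C2, hC2⟩ : ∃ C2 : ℝ, C2 = 24 * (200000 ^ 2) * (b : ℝ) ^ 14 := ⟨_, rfl⟩
  obtain ⟨C3, hC3⟩ : ∃ C3 : ℝ, C3 = 2 ^ (2 * U') := ⟨_, rfl⟩
  obtain ⟨C4, hC4⟩ : ∃ C4 : ℝ, C4 = 2 ^ (U + 2) := ⟨_, rfl⟩
  have hC20 : 0 ≤ C2 := by rw [hC2]; positivity
  have hC30 : 0 ≤ C3 := by rw [hC3]; positivity
  have hC40 : 0 ≤ C4 := by rw [hC4]; positivity
  obtain ⟨k6, hk6⟩ := exists_nat_ge (2 * C2 + C3 + 2 * C4)
  refine ⟨n1 + n2 + n3 + k6 + 4, fun k hk z hz1 hz2 S hSr hS => ?_⟩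
  obtain ⟨X, hX⟩ : ∃ X, X = b ^ k := ⟨_, rfl⟩
  obtain ⟨M, hM⟩ : ∃ M, M = b ^ (k + 1) := ⟨_, rfl⟩
  have hsmall := hS.small
  have hmajS := hS.maj
  rw [← hX] at hz1 hz2 hsmall ⊢
  rw [← hX, ← hM] at hmajS
  rw [← hM] at hSr ⊢
  have hkX : k < X := by rw [hX]; exact Nat.lt_pow_self (by omega)
  have hX1 : 1 ≤ X := by omega
  have hXM : X ≤ M := by rw [hX, hM]; exact Nat.pow_le_pow_right hbn (by omega)
  have hM1 : 1 ≤ M := by omega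
  have hk1 : 1 ≤ k := by omega
  have hkr : (1 : ℝ) ≤ k := by exact_mod_cast hk1
  have hk0 : (0 : ℝ) < k := by linarith
  have hX0 : (0 : ℝ) < X := by exact_mod_cast hX1
  have hXMr : (X : ℝ) ≤ M := by exact_mod_cast hXM
  have hM0 : (0 : ℝ) < M := by exact_mod_cast hM1
  obtain ⟨hL1, hL2⟩ := logX b k hb
  rw [← hX] at hL1 hL2
  obtain ⟨L, hL⟩ : ∃ L, L = Real.log (X : ℝ) := ⟨_, rfl⟩
  rw [← hL] at hL1 hL2 hz1 hz2
  have hL0 : 0 < L := by linarith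
  have hLge1 : 1 ≤ L := by
    have : (2 : ℝ) ≤ k := by exact_mod_cast (by omega : 2 ≤ k)
    linarith
  have hz : 1 ≤ z := by
    have : (1 : ℝ) ≤ z := (one_le_pow₀ hLge1).trans hz1
    exact_mod_cast this
  obtain ⟨r', hrL, hrM⟩ := h2 X (by omega) z hz (by rw [← hL]; exact hz2)
  rw [← hL] at hrL hrM
  obtain ⟨f1, hf1⟩ : ∃ f1 : ℕ → ℝ, f1 = fun n => ArithmeticFunction.vonMangoldt n - lamR z r' n := ⟨_, rfl⟩
  obtain ⟨f2, hf2⟩ : ∃ f2 : ℕ → ℝ, f2 = fun n => lamz z n - lamR z r' n := ⟨_, rfl⟩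
  obtain ⟨fH, hfH⟩ : ∃ fH : ℕ → ℝ, fH = fun n => ArithmeticFunction.vonMangoldt n - lamz z n := ⟨_, rfl⟩
  obtain ⟨Φ, hΦ⟩ : ∃ Φ : ℝ, Φ = 200000 * L ^ 7 * X := ⟨_, rfl⟩
  have hΦ0 : 0 ≤ Φ := by rw [hΦ]; positivity
  rw [← hfH]
  obtain ⟨Q0, hQ0⟩ : ∃ Q0, Q0 = k ^ (2 * A) := ⟨_, rfl⟩
  have hQ01 : 1 ≤ Q0 := by rw [hQ0]; exact Nat.one_le_pow _ _ (by omega)
  have hQ0X : Q0 ^ 16 ≤ X := by rw [hQ0, ← pow_mul, hX]; exact h3 k (by omega)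
  -- the last scale
  obtain ⟨J, hJ⟩ : ∃ J, J = Nat.findGreatest (fun j => (4 ^ j * Q0) ^ 16 ≤ X) X := ⟨_, rfl⟩
  have hJ1 : (4 ^ J * Q0) ^ 16 ≤ X := by
    rw [hJ]
    exact Nat.findGreatest_spec (P := fun j => (4 ^ j * Q0) ^ 16 ≤ X) (Nat.zero_le X) (by simpa using hQ0X)
  have hJX : J < X := by
    have e1 : J < 4 ^ J := Nat.lt_pow_self (by norm_num)
    have e2 : 4 ^ J ≤ 4 ^ J * Q0 := Nat.le_mul_of_pos_right _ (by omega)
    have e3 : 4 ^ J * Q0 ≤ (4 ^ J * Q0) ^ 16 := Nat.le_self_pow (by norm_num) _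
    omega
  have hJ2 : X < (4 * (4 ^ J * Q0)) ^ 16 := by
    by_contra hcon
    push Not at hcon
    have := Nat.le_findGreatest (P := fun j => (4 ^ j * Q0) ^ 16 ≤ X) (by omega : J + 1 ≤ X) (by
      show (4 ^ (J + 1) * Q0) ^ 16 ≤ X
      rw [show 4 ^ (J + 1) * Q0 = 4 * (4 ^ J * Q0) by ring]
      exact hcon)
    omega
  have hJmono : ∀ j ≤ J, (4 ^ j * Q0) ^ 16 ≤ X := fun j hj =>
    (Nat.pow_le_pow_left (Nat.mul_le_mul_right _ (Nat.pow_le_pow_right (by norm_num) hj)) 16).trans hJ1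
  -- splitting
  have hsplit : ∑ r ∈ S, ‖FF fH X M r‖ ^ 2 =
      ∑ r ∈ S.filter (fun r => Maj X M Q0 r), ‖FF fH X M r‖ ^ 2 + ∑ r ∈ S.filter (fun r => ¬ Maj X M Q0 r), ‖FF fH X M r‖ ^ 2 :=
    (sum_filter_add_sum_filter_not S _ _).symm
  have hy2 : (Q0 : ℝ) = ((k : ℝ) ^ A) ^ 2 := by rw [hQ0, ← pow_mul, mul_comm A 2]; push_cast; ring
  have hcardj : ∀ j ≤ J, ∀ S' ⊆ S, (∀ r ∈ S', Maj X M (4 ^ j * Q0) r) → (S'.card : ℝ) ≤ 2 ^ j * (k : ℝ) ^ A := by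
    intro j hj S' hS' hm
    have e1 := hmajS (4 ^ j * Q0) (by rw [← hQ0]; exact Nat.le_mul_of_pos_left _ (by positivity)) (hJmono j hj) S' hS' hm
    have e2 : (S'.card : ℝ) ^ 2 ≤ (2 ^ j * (k : ℝ) ^ A) ^ 2 := by
      have e3 : ((S'.card ^ 2 : ℕ) : ℝ) ≤ ((4 ^ j * Q0 : ℕ) : ℝ) := by exact_mod_cast e1
      push_cast at e3
      refine e3.trans (le_of_eq ?_)
      rw [hy2, mul_pow, ← pow_mul, ← pow_mul, show (4 : ℝ) = 2 ^ 2 by norm_num, ← pow_mul, mul_comm 2 j]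
    exact (pow_le_pow_iff_left₀ (Nat.cast_nonneg _) (by positivity) (by norm_num)).1 e2
  -- small scales
  have hpart1 : ∑ r ∈ S.filter (fun r => Maj X M Q0 r), ‖FF fH X M r‖ ^ 2 ≤ C3 * (M * X / (k : ℝ) ^ (U + 2)) := by
    have e1 : ∀ r ∈ S.filter (fun r => Maj X M Q0 r), ‖FF fH X M r‖ ^ 2 ≤ (X / L ^ U') ^ 2 := by
      intro r _
      apply pow_le_pow_left₀ (norm_nonneg _)
      have := h1 X (by omega) z (by rw [← hL]; exact hz1) (by rw [← hL]; exact hz2) ((r : ℝ) / (M : ℝ))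
      rw [← hL] at this
      rw [hfH]
      exact this
    have e2 := hcardj 0 (Nat.zero_le _) (S.filter (fun r => Maj X M Q0 r)) (filter_subset _ _) (fun r hr => by
      rw [pow_zero, one_mul]
      exact (mem_filter.1 hr).2)
    rw [pow_zero, one_mul] at e2
    calc _ ≤ ∑ _r ∈ S.filter (fun r => Maj X M Q0 r), ((X : ℝ) / L ^ U') ^ 2 := sum_le_sum e1
      _ = ((S.filter (fun r => Maj X M Q0 r)).card : ℝ) * (X / L ^ U') ^ 2 := by rw [sum_const, nsmul_eq_mul]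
      _ ≤ (k : ℝ) ^ A * (X / L ^ U') ^ 2 := mul_le_mul_of_nonneg_right e2 (sq_nonneg _)
      _ ≤ _ := by rw [hC3]; exact sup_num k X M L A U U' hkr hX0 hXMr hL1 hU'
  -- large scales
  have hpart2 : ∑ r ∈ S.filter (fun r => ¬ Maj X M Q0 r), ‖FF f1 X M r‖ ^ 2 ≤ C2 * (M * X / (k : ℝ) ^ (U + 2)) := by
    have e1 := arc_sum X M Q0 J (S.filter (fun r => ¬ Maj X M Q0 r)) (fun r => ‖FF f1 X M r‖ ^ 2)
      (3 * Φ ^ 2) ((k : ℝ) ^ A) (by positivity) (by positivity) hy2 (by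
        intro j hj r hr
        have hQj : 1 ≤ 4 ^ j * Q0 := Nat.mul_pos (by positivity) (by omega)
        apply pt_bound X M (4 ^ j * Q0) r hQj ((Nat.pow_le_pow_right hQj (by norm_num)).trans (hJmono j hj)) f1 Φ hΦ0 _ hr
        intro V q hV hVN hq hqN c hc α hα
        rw [hf1]
        refine (hrM V q hV hVN hq hqN c hc α hα).trans (le_of_eq ?_)
        rw [hΦ]
        ring) (by
        intro j _ hj
        apply hcardj j hj
        · intro r hr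
          exact (mem_filter.1 (mem_filter.1 hr).1).1
        · intro r hr
          exact (mem_filter.1 hr).2) (fun r hr => (mem_filter.1 hr).2)
    refine e1.trans ?_
    have e3 : ((S.filter (fun r => ¬ Maj X M Q0 r)).card : ℝ) * (1 / ((4 ^ J * Q0 : ℕ) : ℝ)) ≤ 4 / (k : ℝ) ^ (U + 16) := by
      apply small_num _ _ X k (U + 16) hk1 _ hJ2
      · refine le_trans ?_ hQ0X
        rw [hQ0, ← pow_mul]
        exact Nat.pow_le_pow_right hk1 (by omega)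
      · exact (Nat.pow_le_pow_left (card_le_card (filter_subset _ _)) 32).trans hsmall
    have e4 := sqG_num k b X M L ((k : ℝ) ^ A) _ (3 * Φ ^ 2) U hkr hX0 hXMr hL0.le hL2 (by rw [hΦ])
      (pow_le_pow_right₀ hkr hA) e3
    rw [hC2]
    refine le_trans (le_of_eq ?_) e4
    ring
  -- the difference of the models
  have hpart3 : ∑ r ∈ S.filter (fun r => ¬ Maj X M Q0 r), ‖FF f2 X M r‖ ^ 2 ≤ C4 * (M * X / (k : ℝ) ^ (U + 2)) := by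
    have hsub : S.filter (fun r => ¬ Maj X M Q0 r) ⊆ range M := by
      intro r hr
      rw [mem_range]
      exact hSr r (mem_filter.1 hr).1
    have e1 : ∑ r ∈ S.filter (fun r => ¬ Maj X M Q0 r), ‖FF f2 X M r‖ ^ 2 ≤ ∑ r ∈ range M, ‖FF f2 X M r‖ ^ 2 :=
      sum_le_sum_of_subset_of_nonneg hsub fun _ _ _ => by positivity
    rw [FF_pars f2 X M hM1 hXM] at e1
    rw [hC4]
    rw [hf2] at e1 ⊢
    exact e1.trans (p3_num k X M L _ U hk0 hX0 hM0 hL1 hrL)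
  have hpart4 : ∑ r ∈ S.filter (fun r => ¬ Maj X M Q0 r), ‖FF fH X M r‖ ^ 2 ≤
      2 * ∑ r ∈ S.filter (fun r => ¬ Maj X M Q0 r), ‖FF f1 X M r‖ ^ 2 +
      2 * ∑ r ∈ S.filter (fun r => ¬ Maj X M Q0 r), ‖FF f2 X M r‖ ^ 2 := by
    rw [mul_sum, mul_sum, ← sum_add_distrib]
    apply sum_le_sum
    intro r _
    have e1 : FF fH X M r = FF f1 X M r - FF f2 X M r := by
      rw [← FF_sub]
      congr 1
      ext n
      rw [hfH, hf1, hf2]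
      ring
    rw [e1]
    refine (sq_sub_norm _ _).trans (le_of_eq ?_)
    ring
  rw [hsplit]
  have hY : 0 ≤ (M : ℝ) * X / (k : ℝ) ^ (U + 2) := by positivity
  have hfin : (2 * C2 + C3 + 2 * C4) * (M * X / (k : ℝ) ^ (U + 2)) ≤ M * X / (k : ℝ) ^ U :=
    fin_num k (2 * C2 + C3 + 2 * C4) (M * X) U hkr (hk6.trans (by exact_mod_cast (by omega : k6 ≤ k))) (by positivity)
  linarith

end Pool.Agent.HP84.SP
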